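import Pool.Agent.Helper81.HT.Coro

/-!
# The Hodge numbers far from the diagonal
-/

set_option autoImplicit false

namespace Pool.Agent.Hodge81

open Complex Module

variable {n : ℕ} {A B : Type*} [Ring A] [Algebra ℂ A] [FiniteDimensional ℂ A]
  [Ring B] [Algebra ℂ B] [FiniteDimensional ℂ B]

/-- if all `h^{0,q}` agree then all `h^{p,q}` with `|p - q| ≥ n - 4` agree -/
theorem corona {X : HodgeRing n A} {Y : HodgeRing n B} {phi : A ≃ₗ[ℂ] B}
    (hphi : IsMukaiIsometry X Y phi) (h : ∀ q, X.h 0 q = Y.h 0 q) (p q : ℕ)
    (hpq : n + q ≤ p + 4 ∨ n + p ≤ q + 4) : X.h p q = Y.h p q := by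
  have h' : ∀ q, X.h q 0 = Y.h q 0 := fun q => by rw [X.h_conj, Y.h_conj, h]
  refine reduce X Y (fun p q => n + q ≤ p + 4 ∨ n + p ≤ q + 4) (fun p q h => h.symm)
    (fun p q hp hq h => by omega) (fun p q hqp hpq hP => ?_) p q hpq
  replace hP : n + q ≤ p + 4 := by omega
  have hq : q ≤ 2 := by omega
  interval_cases q
  · exact h' p
  · -- `q = 1`
    by_cases h1 : p + 1 = n
    · -- column `n - 2`
      have c := column_sum hphi (a := p - 1) (b := 0) (m := 2) (by omega) (Or.inr rfl)
      simp only [Finset.sum_range_succ, Finset.sum_range_zero] at c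
      have x1 := X.h_serre (p := n) (q := 2) (by omega) (by omega)
      have y1 := Y.h_serre (p := n) (q := 2) (by omega) (by omega)
      rw [Nat.sub_self] at x1 y1
      have e1 : p - 1 + 1 = p := by omega
      have e2 : p - 1 + 2 = n := by omega
      have z1 := h (n - 2)
      have z2 := h' (p - 1)
      simp only [add_zero, zero_add, e1, e2] at c
      omega
    by_cases h2 : p + 2 = n
    · -- column `n - 3`
      have c := column_sum hphi (a := p - 1) (b := 0) (m := 3) (by omega) (Or.inr rfl)
      simp only [Finset.sum_range_succ, Finset.sum_range_zero] at c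
      have x1 := X.h_serre (p := n) (q := 3) (by omega) (by omega)
      have y1 := Y.h_serre (p := n) (q := 3) (by omega) (by omega)
      have x2 := X.h_serre (p := n - 1) (q := 2) (by omega) (by omega)
      have y2 := Y.h_serre (p := n - 1) (q := 2) (by omega) (by omega)
      rw [Nat.sub_self] at x1 y1
      have e1 : p - 1 + 1 = p := by omega
      have e2 : p - 1 + 2 = n - 1 := by omega
      have e3 : p - 1 + 3 = n := by omega
      have e4 : n - (n - 1) = 1 := by omega
      have e5 : n - 2 = p := by omega
      rw [e4, e5, X.h_conj 1 p] at x2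
      rw [e4, e5, Y.h_conj 1 p] at y2
      have z1 := h (n - 3)
      have z2 := h' (p - 1)
      simp only [add_zero, zero_add, e1, e2, e3] at c
      omega
    · -- column `n - 4`
      have h3 : p + 3 = n := by omega
      have m := (main_aux hphi (p := n - 2) (q := 2) (by omega)).1
      have hmin : min (n - 2) 2 + 1 = 3 := by omega
      rw [hmin] at m
      simp only [Finset.sum_range_succ, Finset.sum_range_zero] at m
      norm_num at m
      have e1 : n - 2 - 1 = p := by omega
      rw [e1] at m
      exact m
  · -- `q = 2`
    have h3 : p + 2 = n := by omega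
    have m := (main_aux hphi (p := n - 2) (q := 2) (by omega)).2
    have hmin : min (n - 2) 2 + 1 = 3 := by omega
    rw [hmin] at m
    simp only [Finset.sum_range_succ, Finset.sum_range_zero] at m
    norm_num at m
    have e1 : n - 2 = p := by omega
    have z2 := h' (p - 2)
    rw [e1] at m
    omega

end Pool.Agent.Hodge81
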