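import Pool.Agent.Helper87.RF.Main
import Pool.Agent.Helper87.RF.Corona

/-!
# Holomorphic forms on derived equivalent varieties and families: the final statement
-/

set_option autoImplicit false

namespace Pool.Agent.Hodge81

open Complex Module Pool.Agent.Helper87.RF HodgeRing

universe u

variable {m n : ℕ} {A B : Type u} [Ring A] [Algebra ℂ A] [Ring B] [Algebra ℂ B]
  [FiniteDimensional ℂ A] [FiniteDimensional ℂ B]
  {X : HodgeRing n A} {Y : HodgeRing n B} {P : PolyvectorAction X} {Q : PolyvectorAction Y}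
  {phi : A ≃ₗ[ℂ] B}

section

variable {Γ : Type*} [Group Γ] {M : Monodromy X Γ} {N : Monodromy Y Γ}
  {C D : Type*} [Ring C] [Algebra ℂ C] [Ring D] [Algebra ℂ D]
  {Z : HodgeRing m C} {W : HodgeRing m D}

omit [FiniteDimensional ℂ A] [FiniteDimensional ℂ B] in
/-- total spaces -/
theorem total_main {d : ℕ → HodgeRep.{u} Γ → ℕ} (hd : ∀ i R S, R.Iso S → d i R = d i S)
    (hZ : ∀ q, Z.h 0 q = ∑ j ∈ Finset.range (q + 1), d (q - j) (M.formsRep j))
    (hW : ∀ q, W.h 0 q = ∑ j ∈ Finset.range (q + 1), d (q - j) (N.formsRep j))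
    (h : ∀ j, (M.formsRep j).Iso (N.formsRep j)) (q : ℕ) : Z.h 0 q = W.h 0 q := by
  rw [hZ q, hW q]
  exact Finset.sum_congr rfl fun j _ => hd _ _ _ (h j)

theorem formsRep_finrank (M : Monodromy X Γ) (j : ℕ) :
    finrank ℂ ((M.formsRep j).H 0 j) = X.h 0 j := by
  have h : X.H 0 j ≤ M.forms j := le_sInf fun V hV => hV.2
  exact (Submodule.comapSubtypeEquivOfLe h).finrank_eq

/-- isomorphic variations have the same number of forms -/
theorem h_eq_of_iso {j : ℕ} (h : (M.formsRep j).Iso (N.formsRep j)) : X.h 0 j = Y.h 0 j := by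
  obtain ⟨psi, -, h2⟩ := h
  rw [← formsRep_finrank M, ← formsRep_finrank N]
  refine LinearEquiv.finrank_eq (LinearEquiv.ofSubmodules psi _ _ ?_)
  ext w
  constructor
  · rintro ⟨v, hv, rfl⟩
    exact (h2 0 j v).1 hv
  · intro hw
    refine ⟨psi.symm w, (h2 0 j _).2 ?_, psi.apply_symm_apply w⟩
    exact (congrArg (fun t => t ∈ (N.formsRep j).H 0 j) (psi.apply_symm_apply w)).mpr hw

end

/-- the trivial monodromy -/
def Monodromy.trivial (X : HodgeRing n A) : Monodromy X Unit where
  act := 1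
  degree _ _ _ hv := hv
  conj _ _ := rfl
  int _ _ := rfl
  omega _ := rfl

/-- the absolute case -/
theorem forms_good (h : IsHochschildIso P Q phi) (hM : IsMukaiIsometry X Y phi) {j : ℕ}
    (hj : GoodDegree X Y j) : X.h 0 j = Y.h 0 j :=
  h_eq_of_iso (M := Monodromy.trivial X) (N := Monodromy.trivial Y)
    (fibre_main h hM (fun _ _ => rfl) hj)

end Pool.Agent.Hodge81
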