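import Pool.Agent.Helper87.RF.Part

/-!
# The variations generated by holomorphic forms: operators and complete reducibility
-/

set_option autoImplicit false

namespace Pool.Agent.Hodge81

open Complex Module Pool.Agent.Helper87.RF HodgeRing

universe u

variable {n : ℕ} {A : Type u} [Ring A] [Algebra ℂ A] {X : HodgeRing n A} {Γ : Type*} [Group Γ]
  (M : Monodromy X Γ)

namespace Monodromy

/-- the operators: the monodromy and the projections onto the columns -/
noncomputable def ops : Γ ⊕ ℤ → Module.End ℂ A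
  | Sum.inl g => (M.act g).toLinearMap
  | Sum.inr d => X.part (colSet d)

theorem ops_inl (g : Γ) (v : A) : M.ops (Sum.inl g) v = M.act g v := rfl

theorem ops_inr (d : ℤ) (v : A) : M.ops (Sum.inr d) v = X.part (colSet d) v := rfl

theorem isSub_iff {V : Submodule ℂ A} : M.IsSub V ↔
    (∀ g, ∀ v ∈ V, M.act g v ∈ V) ∧ ∀ x : ℕ × ℕ, ∀ v ∈ V, X.part {x} v ∈ V := by
  constructor
  · rintro ⟨h1, h2⟩
    refine ⟨h1, fun x v hv => ?_⟩
    have hv' := h2 hv
    induction hv' using Submodule.iSup_induction' with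
    | mem y b hb =>
      by_cases hxy : (y.1, y.2) ∈ ({x} : Set (ℕ × ℕ))
      · rw [X.part_of_mem hb.2 hxy]
        exact hb.1
      · rw [X.part_of_notMem hb.2 hxy]
        exact V.zero_mem
    | zero => rw [map_zero]; exact V.zero_mem
    | add b c hb' hc' hb hc =>
      have hle : (⨆ x : ℕ × ℕ, V ⊓ X.H x.1 x.2) ≤ V := iSup_le fun x => inf_le_left
      rw [map_add]
      exact V.add_mem (hb (hle hb')) (hc (hle hc'))
  · rintro ⟨h1, h2⟩
    refine ⟨h1, fun v hv => ?_⟩
    rw [← X.part_univ v, X.part_eq_sum]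
    refine Submodule.sum_mem _ fun x _ => ?_
    exact Submodule.mem_iSup_of_mem x ⟨h2 x v hv, X.part_single_mem x v⟩

theorem IsSub.part_mem {V : Submodule ℂ A} (h : M.IsSub V) (S : Set (ℕ × ℕ)) {v : A}
    (hv : v ∈ V) : X.part S v ∈ V := by
  classical
  rw [X.part_eq_sum]
  exact V.sum_mem fun x _ => (M.isSub_iff.1 h).2 x v hv

/-- a subspace of one degree stable under the operators -/
theorem isSub_of_degree {k : ℕ} {V : Submodule ℂ A} (hV : V ≤ X.degree k)
    (h1 : ∀ g, ∀ v ∈ V, M.act g v ∈ V) (h2 : ∀ d, ∀ v ∈ V, X.part (colSet d) v ∈ V) :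
    M.IsSub V := by
  rw [isSub_iff]
  refine ⟨h1, fun x v hv => ?_⟩
  rw [X.part_single_of_degree (hV hv) x]
  split_ifs
  · exact h2 _ v hv
  · exact V.zero_mem

theorem forms_isSub (j : ℕ) : M.IsSub (M.forms j) := by
  rw [isSub_iff]
  refine ⟨M.act_mem_forms j, fun x v hv => ?_⟩
  rw [forms, Submodule.mem_sInf] at hv ⊢
  exact fun V hV => (M.isSub_iff.1 hV.1).2 x v (hv V hV)

theorem forms_le {j : ℕ} {V : Submodule ℂ A} (h1 : M.IsSub V) (h2 : X.H 0 j ≤ V) :
    M.forms j ≤ V := sInf_le ⟨h1, h2⟩

theorem H_le_forms (j : ℕ) : X.H 0 j ≤ M.forms j := le_sInf fun _ hV => hV.2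

theorem act_part_degree (g : Γ) (k : ℕ) (v : A) :
    M.act g (X.part (degSet k) v) = X.part (degSet k) (M.act g v) := by
  refine X.induct (P := fun v => M.act g (X.part (degSet k) v) = X.part (degSet k) (M.act g v))
    (fun p q a ha => ?_) (by simp) (fun a b ha hb => by simp only [map_add, ha, hb]) v
  have h1 := M.degree g (p + q) a (X.mem_degree rfl ha)
  by_cases h : p + q = k
  · rw [X.part_of_mem ha h]
    rw [h] at h1
    exact (X.degree_iff.1 h1).symm
  · rw [X.part_of_notMem ha h, map_zero, X.part_degree_ne h h1]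

theorem act_omega_pow (g : Γ) (k : ℕ) (v : A) :
    M.act g (X.omega ^ k * v) = X.omega ^ k * M.act g v := by
  rw [map_mul, map_pow, M.omega]

theorem act_inv (g : Γ) (v : A) : M.act g (M.act g⁻¹ v) = v := by
  have h : (M.act g * M.act g⁻¹) v = v := by
    rw [← map_mul, mul_inv_cancel, map_one]
    rfl
  exact h

theorem degree_isSub (k : ℕ) : M.IsSub (X.degree k) := by
  refine M.isSub_of_degree le_rfl (fun g v hv => M.degree g k v hv) fun d v hv => ?_
  rw [X.degree_iff] at hv ⊢
  rw [X.part_comm, hv]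

theorem forms_le_degree (j : ℕ) : M.forms j ≤ X.degree j :=
  M.forms_le (M.degree_isSub j) fun _ hv => X.mem_degree (zero_add j) hv

/-- holomorphic forms are primitive -/
theorem forms_prim {j : ℕ} (hj : j ≤ n) {v : A} (hv : v ∈ M.forms j) :
    X.omega ^ (n - j + 1) * v = 0 := by
  have h1 : M.forms j ≤ X.degree j ⊓ LinearMap.ker (LinearMap.mulLeft ℂ
      (X.omega ^ (n - j + 1))) := by
    refine M.forms_le (M.isSub_of_degree inf_le_left (fun g v hv => ⟨?_, ?_⟩)
      fun d v hv => ⟨?_, ?_⟩) fun v hv => ⟨X.mem_degree (zero_add j) hv, ?_⟩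
    · exact M.degree g j v hv.1
    · have h2 : X.omega ^ (n - j + 1) * v = 0 := hv.2
      show X.omega ^ (n - j + 1) * M.act g v = 0
      rw [← M.act_omega_pow, h2, map_zero]
    · show X.part (colSet d) v ∈ X.degree j
      rw [X.degree_iff, X.part_comm, X.degree_iff.1 hv.1]
    · have h2 : X.omega ^ (n - j + 1) * v = 0 := hv.2
      show X.omega ^ (n - j + 1) * X.part (colSet d) v = 0
      rw [X.omega_part_column, h2, map_zero]
    · have h2 := X.pow_mem X.omega_mem hv (n - j + 1)
      rw [X.bounded _ _ (Or.inr (by omega))] at h2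
      simpa using h2
  exact (h1 hv).2

theorem stable_of_isSub {V : Submodule ℂ A} (h : M.IsSub V) : Stable M.ops V := by
  rintro (g | d) v hv
  · exact h.1 g v hv
  · exact h.part_mem M _ hv

theorem stable_forms (j : ℕ) : Stable M.ops (M.forms j) := M.stable_of_isSub (M.forms_isSub j)

end Monodromy

namespace HodgeRing

theorem int_column (X : HodgeRing n A) (m : ℕ) (d : ℤ) (a b : A) :
    X.int (X.omega ^ m * X.part (colSet d) a * X.conj b) =
      X.int (X.omega ^ m * a * X.conj (X.part (colSet d) b)) := by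
  refine X.induct (P := fun a => X.int (X.omega ^ m * X.part (colSet d) a * X.conj b) =
      X.int (X.omega ^ m * a * X.conj (X.part (colSet d) b))) (fun p q a ha => ?_) (by simp)
      (fun a b ha hb => by simp only [map_add, mul_add, add_mul, ha, hb]) a
  refine X.induct (P := fun b => X.int (X.omega ^ m * X.part (colSet d) a * X.conj b) =
      X.int (X.omega ^ m * a * X.conj (X.part (colSet d) b))) (fun p' q' b hb => ?_) (by simp)
      (fun a b ha hb => by simp only [map_add, mul_add, ha, hb]) b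
  have h0 : ((p : ℤ) - q ≠ (p' : ℤ) - q') → X.int (X.omega ^ m * a * X.conj b) = 0 := by
    intro hne
    refine X.int_off _ _ _ (X.mul_mem _ _ _ _ _ _ (X.pow_mem X.omega_mem ha m)
      (X.conj_mem _ _ _ hb)) fun h => hne ?_
    simp only [Prod.mk.injEq] at h
    omega
  by_cases h1 : (p, q) ∈ colSet d
  · rw [X.part_of_mem ha h1]
    by_cases h2 : (p', q') ∈ colSet d
    · rw [X.part_of_mem hb h2]
    · rw [X.part_of_notMem hb h2, map_zero, mul_zero, map_zero]
      refine h0 ?_
      simp only [colSet, Set.mem_ofPred_eq] at h1 h2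
      omega
  · rw [X.part_of_notMem ha h1, mul_zero, zero_mul, map_zero]
    by_cases h2 : (p', q') ∈ colSet d
    · rw [X.part_of_mem hb h2]
      refine (h0 ?_).symm
      simp only [colSet, Set.mem_ofPred_eq] at h1 h2
      omega
    · rw [X.part_of_notMem hb h2, map_zero, mul_zero, map_zero]

theorem definite (X : HodgeRing n A) {j p q : ℕ} (hj : j ≤ n) (hpq : p + q = j) {a : A}
    (ha : a ∈ X.H p q) (h1 : X.omega ^ (n - j + 1) * a = 0)
    (h2 : X.int (X.omega ^ (n - j) * a * X.conj a) = 0) : a = 0 := by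
  by_contra h0
  subst hpq
  obtain ⟨r, hr, he⟩ := X.hodgeRiemann p q a ha hj h1 h0
  rw [h2, mul_zero] at he
  have : r = 0 := by exact_mod_cast he.symm
  exact hr.ne' this

end HodgeRing

namespace Monodromy

theorem int_act (m : ℕ) (g : Γ) (a b : A) :
    X.int (X.omega ^ m * M.act g a * X.conj b) =
      X.int (X.omega ^ m * a * X.conj (M.act g⁻¹ b)) := by
  rw [← M.int g (X.omega ^ m * a * X.conj (M.act g⁻¹ b)), map_mul (M.act g), M.act_omega_pow,
    M.conj, M.act_inv]

/-- a vector orthogonal to a subvariation containing it is zero -/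
theorem eq_zero_of_orth {j : ℕ} (hj : j ≤ n) {V : Submodule ℂ A} (hV : V ≤ M.forms j)
    (hst : Stable M.ops V) {v : A} (hv : v ∈ V)
    (h : ∀ w ∈ V, X.int (X.omega ^ (n - j) * v * X.conj w) = 0) : v = 0 := by
  refine X.eq_zero_of_columns fun d => ?_
  have hvd : X.part (colSet d) v ∈ V := hst (Sum.inr d) v hv
  have hdeg := M.forms_le_degree j (hV hvd)
  have hprim := M.forms_prim hj (hV hvd)
  have h2 : X.int (X.omega ^ (n - j) * X.part (colSet d) v *
      X.conj (X.part (colSet d) v)) = 0 := by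
    rw [X.int_column, X.part_part, Set.inter_self]
    exact h _ hvd
  by_cases hex : ∃ p q : ℕ, p + q = j ∧ (p : ℤ) - q = d
  · obtain ⟨p, q, hpq, hd⟩ := hex
    exact X.definite hj hpq (X.column_mem_H hdeg (X.part_column_mem d v) hpq hd) hprim h2
  · rw [← X.degree_iff.1 hdeg, X.part_part]
    have : degSet j ∩ colSet d = ∅ := by
      ext x
      simp only [degSet, colSet, Set.mem_inter_iff, Set.mem_ofPred_eq, Set.mem_empty_iff_false,
        iff_false]
      intro hx
      exact hex ⟨x.1, x.2, hx.1, hx.2⟩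
    rw [this]
    refine X.induct (P := fun v => X.part ∅ v = 0) (fun p q a ha => ?_) (by simp)
      (fun a b ha hb => by rw [map_add, ha, hb, add_zero]) v
    exact X.part_of_notMem ha (Set.notMem_empty _)

end Monodromy

end Pool.Agent.Hodge81
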