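import Mathlib

/-!
# Spaces with a family of operators: cancellation of squares
-/

set_option autoImplicit false

namespace Pool.Agent.Helper87.RF

open Module

universe u v

variable {ι : Type*} {K : Type*} [Field K]

section defs

variable {V W : Type*} [AddCommGroup V] [Module K V] [AddCommGroup W] [Module K W]

/-- linear maps commuting with the operators -/
def homs (v : ι → Module.End K V) (w : ι → Module.End K W) : Submodule K (V →ₗ[K] W) where
  carrier := {h | ∀ i x, h (v i x) = w i (h x)}
  add_mem' {a b} ha hb i x := by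
    rw [LinearMap.add_apply, LinearMap.add_apply, ha i x, hb i x, map_add]
  zero_mem' i x := by simp
  smul_mem' c a ha i x := by
    rw [LinearMap.smul_apply, LinearMap.smul_apply, ha i x, map_smul]

theorem mem_homs {v : ι → Module.End K V} {w : ι → Module.End K W} {h : V →ₗ[K] W} :
    h ∈ homs v w ↔ ∀ i x, h (v i x) = w i (h x) := Iff.rfl

/-- a subspace stable under the operators -/
def Stable (v : ι → Module.End K V) (S : Submodule K V) : Prop := ∀ i, ∀ x ∈ S, v i x ∈ S

/-- the operators on a stable subspace -/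
def res (v : ι → Module.End K V) {S : Submodule K V} (hS : Stable v S) :
    ι → Module.End K S := fun i => (v i).restrict (hS i)

theorem res_apply (v : ι → Module.End K V) {S : Submodule K V} (hS : Stable v S) (i : ι) (x : S) :
    (res v hS i x : V) = v i x := rfl

/-- complete reducibility -/
def CR (v : ι → Module.End K V) : Prop :=
  ∀ S : Submodule K V, Stable v S → ∃ T : Submodule K V, Stable v T ∧ IsCompl S T

/-- the operators on a product -/
def prd (v : ι → Module.End K V) (w : ι → Module.End K W) : ι → Module.End K (V × W) :=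
  fun i => (v i).prodMap (w i)

/-- there is an injective equivariant map -/
def Emb (v : ι → Module.End K V) (w : ι → Module.End K W) : Prop :=
  ∃ h ∈ homs v w, Function.Injective h

end defs

section lemmas

variable {V W U : Type*} [AddCommGroup V] [Module K V] [AddCommGroup W] [Module K W]
  [AddCommGroup U] [Module K U]
  {v : ι → Module.End K V} {w : ι → Module.End K W} {t : ι → Module.End K U}

theorem homs_comp {h : V →ₗ[K] W} {g : W →ₗ[K] U} (hh : h ∈ homs v w) (hg : g ∈ homs w t) :
    g ∘ₗ h ∈ homs v t := fun i x => by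
  rw [LinearMap.comp_apply, LinearMap.comp_apply, hh i x, hg i]

theorem Emb.trans (h1 : Emb v w) (h2 : Emb w t) : Emb v t := by
  obtain ⟨h, hh, hi⟩ := h1
  obtain ⟨g, hg, gi⟩ := h2
  exact ⟨g ∘ₗ h, homs_comp hh hg, gi.comp hi⟩

theorem Emb.sq (h1 : Emb v w) : Emb (prd v v) (prd w w) := by
  obtain ⟨h, hh, hi⟩ := h1
  refine ⟨h.prodMap h, fun i x => ?_, Function.Injective.prodMap hi hi⟩
  show (h (v i x.1), h (v i x.2)) = (w i (h x.1), w i (h x.2))
  rw [hh i, hh i]

theorem homs_symm {e : V ≃ₗ[K] W} (he : e.toLinearMap ∈ homs v w) :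
    e.symm.toLinearMap ∈ homs w v := fun i x => by
  have h := he i (e.symm x)
  simp only [LinearEquiv.coe_coe, LinearEquiv.apply_symm_apply] at h ⊢
  rw [← h, LinearEquiv.symm_apply_apply]

theorem Emb.equiv [FiniteDimensional K V] [FiniteDimensional K W] (h1 : Emb v w)
    (h2 : Emb w v) : ∃ e : V ≃ₗ[K] W, e.toLinearMap ∈ homs v w := by
  obtain ⟨h, hh, hi⟩ := h1
  obtain ⟨g, hg, gi⟩ := h2
  have e1 := LinearMap.finrank_le_finrank_of_injective hi
  have e2 := LinearMap.finrank_le_finrank_of_injective gi
  exact ⟨LinearEquiv.ofInjectiveOfFinrankEq h hi (le_antisymm e1 e2), hh⟩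

theorem Stable.ker {h : V →ₗ[K] W} (hh : h ∈ homs v w) : Stable v (LinearMap.ker h) :=
  fun i x hx => by
    rw [LinearMap.mem_ker] at hx ⊢
    rw [hh i x, hx, map_zero]

theorem Stable.range {h : V →ₗ[K] W} (hh : h ∈ homs v w) : Stable w (LinearMap.range h) := by
  rintro i _ ⟨x, rfl⟩
  exact ⟨v i x, hh i x⟩

theorem Stable.map_subtype {S : Submodule K V} (hS : Stable v S) {T : Submodule K S}
    (hT : Stable (res v hS) T) : Stable v (T.map S.subtype) := by
  rintro i _ ⟨x, hx, rfl⟩
  exact ⟨res v hS i x, hT i x hx, rfl⟩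

theorem Stable.comap_subtype {S : Submodule K V} (hS : Stable v S) {T : Submodule K V}
    (hT : Stable v T) : Stable (res v hS) (T.comap S.subtype) := fun i x hx => hT i x hx

theorem CR.res (h : CR v) {S : Submodule K V} (hS : Stable v S) : CR (res v hS) := by
  intro T hT
  obtain ⟨C, hC, hd⟩ := h _ (hS.map_subtype hT)
  refine ⟨C.comap S.subtype, hS.comap_subtype hC, ?_, ?_⟩
  · rw [Submodule.disjoint_def]
    intro x hx hxC
    exact Subtype.ext (Submodule.disjoint_def.1 hd.disjoint x.1 ⟨x, hx, rfl⟩ hxC)
  · rw [codisjoint_iff, eq_top_iff]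
    rintro x -
    have hx : x.1 ∈ T.map S.subtype ⊔ C := by rw [hd.sup_eq_top]; trivial
    obtain ⟨_, ⟨y, hy, rfl⟩, c, hc, hs⟩ := Submodule.mem_sup.1 hx
    have hcS : c ∈ S := by
      have : c = x.1 - y.1 := by
        rw [← hs]
        simp
      rw [this]
      exact S.sub_mem x.2 y.2
    refine Submodule.mem_sup.2 ⟨y, hy, ⟨c, hcS⟩, hc, ?_⟩
    exact Subtype.ext hs

/-- homomorphisms into a direct sum -/
theorem finrank_homs_compl [FiniteDimensional K V] [FiniteDimensional K W] {S T : Submodule K V}
    (hS : Stable v S) (hT : Stable v T) (h : IsCompl S T) :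
    finrank K (homs w v) = finrank K (homs w (res v hS)) + finrank K (homs w (res v hT)) := by
  have f1 : Module.Free K (homs w (res v hS)) :=
    Module.Free.of_divisionRing K (homs w (res v hS))
  have f2 : Module.Free K (homs w (res v hT)) :=
    Module.Free.of_divisionRing K (homs w (res v hT))
  have e0 : finrank K (homs w (res v hS) × homs w (res v hT)) =
      finrank K (homs w (res v hS)) + finrank K (homs w (res v hT)) := Module.finrank_prod
  rw [← e0]
  refine LinearEquiv.finrank_eq (LinearEquiv.symm ?_)
  let f : (homs w (res v hS) × homs w (res v hT)) →ₗ[K] homs w v :=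
    { toFun := fun x => ⟨S.subtype ∘ₗ x.1.1 + T.subtype ∘ₗ x.2.1, fun i y => by
        have h1 := x.1.2 i y
        have h2 := x.2.2 i y
        simp only [LinearMap.add_apply, LinearMap.comp_apply, map_add, h1, h2]
        rfl⟩
      map_add' := fun x y => by
        ext z
        simp only [Prod.fst_add, Prod.snd_add, Submodule.coe_add, LinearMap.add_apply,
          LinearMap.comp_apply, map_add, Submodule.subtype_apply]
        abel
      map_smul' := fun c x => by
        ext z
        simp }
  refine LinearEquiv.ofBijective f ⟨?_, ?_⟩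
  · rw [injective_iff_map_eq_zero]
    rintro ⟨a, b⟩ hab
    have key : ∀ z, (a.1 z : V) = 0 ∧ (b.1 z : V) = 0 := by
      intro z
      have h1 : (a.1 z : V) + (b.1 z : V) = 0 := by
        have := congrArg (fun g : homs w v => g.1 z) hab
        exact this
      have h2 : (a.1 z : V) = 0 := by
        refine Submodule.disjoint_def.1 h.disjoint _ (a.1 z).2 ?_
        rw [eq_neg_of_add_eq_zero_left h1]
        exact T.neg_mem (b.1 z).2
      exact ⟨h2, by rwa [h2, zero_add] at h1⟩
    refine Prod.ext (Subtype.ext (LinearMap.ext fun z => Subtype.ext (key z).1))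
      (Subtype.ext (LinearMap.ext fun z => Subtype.ext (key z).2))
  · rintro ⟨g, hg⟩
    have hdec : ∀ x : V, ∃ s ∈ S, ∃ t ∈ T, s + t = x := fun x => by
      have hx : x ∈ S ⊔ T := by rw [h.sup_eq_top]; trivial
      exact Submodule.mem_sup.1 hx
    set p := S.projectionOnto T h with hp
    set q := T.projectionOnto S h.symm with hq
    have hpS : ∀ x ∈ S, (p x : V) = x := fun x hx =>
      congrArg Subtype.val (Submodule.projectionOnto_apply_left h ⟨x, hx⟩)
    have hpT : ∀ x ∈ T, p x = 0 := fun x hx =>
      (Submodule.projectionOnto_apply_eq_zero_iff h).2 hx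
    have hqT : ∀ x ∈ T, (q x : V) = x := fun x hx =>
      congrArg Subtype.val (Submodule.projectionOnto_apply_left h.symm ⟨x, hx⟩)
    have hqS : ∀ x ∈ S, q x = 0 := fun x hx =>
      (Submodule.projectionOnto_apply_eq_zero_iff h.symm).2 hx
    have hpv : ∀ i x, p (v i x) = res v hS i (p x) := by
      intro i x
      obtain ⟨s, hs, t, ht, rfl⟩ := hdec x
      apply Subtype.ext
      rw [map_add, map_add, map_add, hpT _ (hT i t ht), hpT t ht, add_zero, add_zero,
        hpS _ (hS i s hs), res_apply, hpS s hs]
    have hqv : ∀ i x, q (v i x) = res v hT i (q x) := by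
      intro i x
      obtain ⟨s, hs, t, ht, rfl⟩ := hdec x
      apply Subtype.ext
      rw [map_add, map_add, map_add, hqS _ (hS i s hs), hqS s hs, zero_add, zero_add,
        hqT _ (hT i t ht), res_apply, hqT t ht]
    refine ⟨(⟨p ∘ₗ g, fun i x => ?_⟩, ⟨q ∘ₗ g, fun i x => ?_⟩), ?_⟩
    · rw [LinearMap.comp_apply, hg i x, hpv]
      rfl
    · rw [LinearMap.comp_apply, hg i x, hqv]
      rfl
    · apply Subtype.ext
      ext z
      show (p (g z) : V) + (q (g z) : V) = g z
      obtain ⟨s, hs, t, ht, he⟩ := hdec (g z)
      rw [← he, map_add, map_add, hpT t ht, hqS s hs, add_zero, zero_add, hpS s hs, hqT t ht]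

theorem finrank_homs_equiv [FiniteDimensional K V] [FiniteDimensional K W]
    [FiniteDimensional K U] (e : V ≃ₗ[K] U) (he : e.toLinearMap ∈ homs v t) :
    finrank K (homs w v) = finrank K (homs w t) := by
  refine LinearEquiv.finrank_eq ?_
  refine LinearEquiv.ofBijective
    { toFun := fun g => ⟨e.toLinearMap ∘ₗ g.1, homs_comp g.2 he⟩
      map_add' := fun a b => by ext z; simp
      map_smul' := fun c a => by ext z; simp } ⟨?_, ?_⟩
  · intro a b hab
    apply Subtype.ext
    ext z
    have := congrArg (fun g : homs w t => g.1 z) hab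
    exact e.injective this
  · intro g
    refine ⟨⟨e.symm.toLinearMap ∘ₗ g.1, homs_comp g.2 (homs_symm he)⟩, ?_⟩
    apply Subtype.ext
    ext z
    simp

theorem finrank_homs_prd [FiniteDimensional K V] [FiniteDimensional K W] :
    finrank K (homs w (prd v v)) = 2 * finrank K (homs w v) := by
  have e0 : finrank K (homs w v × homs w v) =
      finrank K (homs w v) + finrank K (homs w v) := Module.finrank_prod
  rw [two_mul, ← e0]
  refine LinearEquiv.finrank_eq ?_
  let f : homs w (prd v v) →ₗ[K] (homs w v × homs w v) :=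
    { toFun := fun g => (⟨LinearMap.fst K V V ∘ₗ g.1, fun i x => by
          rw [LinearMap.comp_apply, g.2 i x]; rfl⟩,
        ⟨LinearMap.snd K V V ∘ₗ g.1, fun i x => by
          rw [LinearMap.comp_apply, g.2 i x]; rfl⟩)
      map_add' := fun a b => by
        refine Prod.ext (Subtype.ext ?_) (Subtype.ext ?_)
        · apply LinearMap.ext
          intro z
          rfl
        · apply LinearMap.ext
          intro z
          rfl
      map_smul' := fun c a => by
        refine Prod.ext (Subtype.ext ?_) (Subtype.ext ?_)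
        · apply LinearMap.ext
          intro z
          rfl
        · apply LinearMap.ext
          intro z
          rfl }
  refine LinearEquiv.ofBijective f ⟨?_, ?_⟩
  · intro a b hab
    apply Subtype.ext
    ext z
    · have := congrArg (fun g : homs w v × homs w v => g.1.1 z) hab
      exact this
    · have := congrArg (fun g : homs w v × homs w v => g.2.1 z) hab
      exact this
  · rintro ⟨a, b⟩
    refine ⟨⟨a.1.prod b.1, fun i x => ?_⟩, ?_⟩
    · show (a.1 (w i x), b.1 (w i x)) = (v i (a.1 x), v i (b.1 x))
      rw [a.2 i x, b.2 i x]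
    · refine Prod.ext (Subtype.ext ?_) (Subtype.ext ?_)
      · apply LinearMap.ext
        intro z
        rfl
      · apply LinearMap.ext
        intro z
        rfl

end lemmas

/-- a nonzero space has a simple stable subspace -/
theorem exists_simple {V : Type*} [AddCommGroup V] [Module K V] [FiniteDimensional K V]
    (v : ι → Module.End K V) (hV : 0 < finrank K V) :
    ∃ S : Submodule K V, Stable v S ∧ S ≠ ⊥ ∧ ∀ T ≤ S, Stable v T → T ≠ ⊥ → T = S := by
  classical
  have hex : ∃ d, ∃ S : Submodule K V, Stable v S ∧ S ≠ ⊥ ∧ finrank K S = d := by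
    refine ⟨_, ⊤, fun i x _ => trivial, ?_, rfl⟩
    intro h
    have h1 : finrank K (⊤ : Submodule K V) = 0 := by rw [h, finrank_bot]
    rw [finrank_top] at h1
    omega
  obtain ⟨S, hS, hS0, hSd⟩ := Nat.find_spec hex
  refine ⟨S, hS, hS0, fun T hTS hT hT0 => ?_⟩
  by_contra hne
  have hlt := Submodule.finrank_lt_finrank_of_lt (lt_of_le_of_ne hTS hne)
  rw [hSd] at hlt
  exact Nat.find_min hex hlt ⟨T, hT, hT0, rfl⟩

theorem exists_embed_aux (d : ℕ) : ∀ {V : Type u} [AddCommGroup V] [Module K V]
    [FiniteDimensional K V] {W : Type v} [AddCommGroup W] [Module K W] [FiniteDimensional K W]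
    (v : ι → Module.End K V) (w : ι → Module.End K W), finrank K V = d → CR v → CR w →
    (∀ (L : Type u) [AddCommGroup L] [Module K L] [FiniteDimensional K L]
      (l : ι → Module.End K L), finrank K (homs l v) ≤ finrank K (homs l w)) → Emb v w := by
  induction d using Nat.strong_induction_on with
  | _ d ih =>
    intro V _ _ _ W _ _ _ v w hd hv hw hle
    rcases Nat.eq_zero_or_pos d with hd0 | hdpos
    · have hs : Subsingleton V := by
        rw [hd0] at hd
        exact Module.finrank_zero_iff.1 hd
      exact ⟨0, Submodule.zero_mem _, Function.injective_of_subsingleton _⟩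
    obtain ⟨S, hS, hS0, hsimple⟩ := exists_simple v (by rw [hd]; exact hdpos)
    -- a nonzero map from `S` to `W`
    have h1 : 0 < finrank K (homs (res v hS) v) := by
      rw [Module.finrank_pos_iff_exists_ne_zero]
      refine ⟨⟨S.subtype, fun i x => rfl⟩, fun h0 => hS0 ?_⟩
      rw [eq_bot_iff]
      intro x hx
      have h2 : S.subtype = 0 := congrArg Subtype.val h0
      have h3 : S.subtype ⟨x, hx⟩ = 0 := by rw [h2]; rfl
      exact h3
    have h2 := lt_of_lt_of_le h1 (hle S (res v hS))
    rw [Module.finrank_pos_iff_exists_ne_zero] at h2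
    obtain ⟨⟨h, hh⟩, hne⟩ := h2
    have hinj : Function.Injective h := by
      rw [← LinearMap.ker_eq_bot]
      by_contra hk
      have hst : Stable v ((LinearMap.ker h).map S.subtype) :=
        hS.map_subtype (Stable.ker hh)
      have hle' : (LinearMap.ker h).map S.subtype ≤ S := Submodule.map_subtype_le S _
      have hne' : (LinearMap.ker h).map S.subtype ≠ ⊥ := by
        intro h0
        exact hk (Submodule.map_injective_of_injective S.injective_subtype
          (by rw [h0, Submodule.map_bot]))
      have heq := hsimple _ hle' hst hne'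
      apply hne
      apply Subtype.ext
      ext x
      have hx : x.1 ∈ (LinearMap.ker h).map S.subtype := by rw [heq]; exact x.2
      obtain ⟨y, hy, hyx⟩ := hx
      have : y = x := Subtype.ext hyx
      rw [← this]
      exact hy
    obtain ⟨S1, hS1, hc⟩ := hv S hS
    have hR : Stable w (LinearMap.range h) := Stable.range hh
    obtain ⟨R1, hR1, hcR⟩ := hw _ hR
    have hdim : finrank K S1 < d := by
      have e1 := Submodule.finrank_add_eq_of_isCompl hc
      have e2 : 0 < finrank K S := by
        rw [Nat.pos_iff_ne_zero]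
        intro h0
        exact hS0 (Submodule.finrank_eq_zero.1 h0)
      omega
    obtain ⟨g, hg, gi⟩ := ih _ hdim (res v hS1) (res w hR1) rfl (hv.res hS1) (hw.res hR1)
      (fun L _ _ _ l => by
        have e1 := finrank_homs_compl (w := l) hS hS1 hc
        have e2 := finrank_homs_compl (w := l) hR hR1 hcR
        have e3 : finrank K (homs l (res v hS)) = finrank K (homs l (res w hR)) :=
          finrank_homs_equiv (LinearEquiv.ofInjective h hinj) (fun i x => Subtype.ext (hh i x))
        have e4 := hle L l
        omega)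
    refine ⟨LinearMap.ofIsCompl hc h (R1.subtype ∘ₗ g), ?_, ?_⟩
    · intro i x
      have hx : x ∈ S ⊔ S1 := by rw [hc.sup_eq_top]; trivial
      obtain ⟨a, ha, b, hb, rfl⟩ := Submodule.mem_sup.1 hx
      have e1 : ∀ s : S, LinearMap.ofIsCompl hc h (R1.subtype ∘ₗ g) s.1 = h s :=
        fun s => LinearMap.ofIsCompl_apply_left hc s
      have e2 : ∀ s : S1, LinearMap.ofIsCompl hc h (R1.subtype ∘ₗ g) s.1 = (g s : W) :=
        fun s => LinearMap.ofIsCompl_apply_right hc s
      rw [map_add, map_add, map_add, map_add]
      congr 1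
      · rw [e1 ⟨a, ha⟩, e1 ⟨v i a, hS i a ha⟩, ← hh i ⟨a, ha⟩]
        rfl
      · rw [e2 ⟨b, hb⟩, e2 ⟨v i b, hS1 i b hb⟩]
        exact congrArg Subtype.val (hg i ⟨b, hb⟩)
    · rw [injective_iff_map_eq_zero]
      intro x hx0
      have hx : x ∈ S ⊔ S1 := by rw [hc.sup_eq_top]; trivial
      obtain ⟨a, ha, b, hb, rfl⟩ := Submodule.mem_sup.1 hx
      have e1 : LinearMap.ofIsCompl hc h (R1.subtype ∘ₗ g) a = h ⟨a, ha⟩ :=
        LinearMap.ofIsCompl_apply_left hc ⟨a, ha⟩
      have e2 : LinearMap.ofIsCompl hc h (R1.subtype ∘ₗ g) b = (g ⟨b, hb⟩ : W) :=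
        LinearMap.ofIsCompl_apply_right hc ⟨b, hb⟩
      rw [map_add, e1, e2] at hx0
      have e3 : h ⟨a, ha⟩ = 0 := by
        refine Submodule.disjoint_def.1 hcR.disjoint _ ⟨_, rfl⟩ ?_
        rw [eq_neg_of_add_eq_zero_left hx0]
        exact R1.neg_mem (g ⟨b, hb⟩).2
      rw [e3, zero_add] at hx0
      have e4 : (⟨a, ha⟩ : S) = 0 := hinj (by rw [e3, map_zero])
      have e5 : (⟨b, hb⟩ : S1) = 0 := gi (by rw [map_zero]; exact Subtype.ext hx0)
      have e6 : a = 0 := congrArg Subtype.val e4
      have e7 : b = 0 := congrArg Subtype.val e5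
      rw [e6, e7, add_zero]

/-- cancellation of squares -/
theorem Emb.of_prd {V W : Type*} [AddCommGroup V] [Module K V] [FiniteDimensional K V]
    [AddCommGroup W] [Module K W] [FiniteDimensional K W] {v : ι → Module.End K V}
    {w : ι → Module.End K W} (hv : CR v) (hw : CR w) (h : Emb (prd v v) (prd w w)) :
    Emb v w := by
  refine exists_embed_aux (finrank K V) v w rfl hv hw fun L _ _ _ l => ?_
  obtain ⟨g, hg, gi⟩ := h
  have h1 : finrank K (homs l (prd v v)) ≤ finrank K (homs l (prd w w)) := by
    let f : homs l (prd v v) →ₗ[K] homs l (prd w w) :=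
      { toFun := fun a => ⟨g ∘ₗ a.1, homs_comp a.2 hg⟩
        map_add' := fun a b => by
          apply Subtype.ext
          ext z <;> simp
        map_smul' := fun c a => by
          apply Subtype.ext
          ext z <;> simp }
    refine LinearMap.finrank_le_finrank_of_injective (f := f) ?_
    intro a b hab
    apply Subtype.ext
    apply LinearMap.ext
    intro z
    have := congrArg (fun q : homs l (prd w w) => q.1 z) hab
    exact gi this
  rw [finrank_homs_prd, finrank_homs_prd] at h1
  omega

end Pool.Agent.Helper87.RF
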