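import Pool.Agent.Helper28.HT.Final

/-!
# The general fibre of a smooth projective family, with its monodromy
-/

set_option autoImplicit false

namespace Pool.Agent.Hodge81

universe u

namespace HodgeRing

variable {n : ℕ} {A : Type*} [Ring A] [Algebra ℂ A] (X : HodgeRing n A)

/-- the part `⨁_{p + q = k} H^{p,q}(X)` of total degree `k` -/
def degree (k : ℕ) : Submodule ℂ A := ⨆ (x : ℕ × ℕ) (_ : x.1 + x.2 = k), X.H x.1 x.2

end HodgeRing

/-- The action of the fundamental group `Γ` of the base of a smooth projective family on the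
cohomology of one fibre `X`: ring automorphisms which preserve the degree, complex conjugation,
integration and the class `omega` of a relatively ample divisor. (The Hodge decomposition is NOT
preserved.) -/
structure Monodromy {n : ℕ} {A : Type*} [Ring A] [Algebra ℂ A] (X : HodgeRing n A)
    (Γ : Type*) [Group Γ] where
  act : Γ →* (A ≃ₐ[ℂ] A)
  degree : ∀ g k v, v ∈ X.degree k → act g v ∈ X.degree k
  conj : ∀ g v, act g (X.conj v) = X.conj (act g v)
  int : ∀ g v, X.int (act g v) = X.int v
  omega : ∀ g, act g X.omega = X.omega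

/-- the fibre of a complex variation of Hodge structure: a vector space with the action of the
fundamental group of the base and with the subspaces of type `(p,q)` -/
structure HodgeRep (Γ : Type*) where
  V : Type u
  [grp : AddCommGroup V]
  [mod : Module ℂ V]
  act : Γ → Module.End ℂ V
  H : ℕ → ℕ → Submodule ℂ V

attribute [instance] HodgeRep.grp HodgeRep.mod

/-- isomorphic variations -/
def HodgeRep.Iso {Γ : Type*} (R S : HodgeRep.{u} Γ) : Prop :=
  ∃ psi : R.V ≃ₗ[ℂ] S.V, (∀ g v, psi (R.act g v) = S.act g (psi v)) ∧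
    ∀ p q v, v ∈ R.H p q ↔ psi v ∈ S.H p q

namespace Monodromy

variable {n : ℕ} {A : Type u} [Ring A] [Algebra ℂ A] {X : HodgeRing n A} {Γ : Type*} [Group Γ]
  (M : Monodromy X Γ)

/-- subvariations of Hodge structure: subspaces stable under the monodromy which are the sum of
their intersections with the `H^{p,q}` -/
def IsSub (V : Submodule ℂ A) : Prop :=
  (∀ g, ∀ v ∈ V, M.act g v ∈ V) ∧ V ≤ ⨆ x : ℕ × ℕ, V ⊓ X.H x.1 x.2

/-- the smallest subvariation whose fibre contains `H^{0,j}(X)` -/
def forms (j : ℕ) : Submodule ℂ A := sInf {V | M.IsSub V ∧ X.H 0 j ≤ V}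

theorem act_mem_forms (j : ℕ) (g : Γ) (v : A) (hv : v ∈ M.forms j) : M.act g v ∈ M.forms j := by
  rw [forms, Submodule.mem_sInf] at hv ⊢
  exact fun V hV => hV.1.1 g v (hv V hV)

/-- the same as the fibre of a variation of Hodge structure -/
def formsRep (j : ℕ) : HodgeRep.{u} Γ where
  V := M.forms j
  act g := (M.act g).toLinearMap.restrict (M.act_mem_forms j g)
  H p q := (X.H p q).comap (M.forms j).subtype

end Monodromy

/-- the degrees in which the holomorphic forms are compared: `j ≤ 2`, or `j ≥ n - 2`, or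
`H^{0,j}` is generated in degrees one and two, or the algebra generated by `H^{0,1}` and `H^{0,2}`
reaches the degree `n - 1` -/
def GoodDegree {n : ℕ} {A B : Type*} [Ring A] [Algebra ℂ A] [Ring B] [Algebra ℂ B]
    (X : HodgeRing n A) (Y : HodgeRing n B) (j : ℕ) : Prop :=
  j ≤ 2 ∨ n ≤ j + 2 ∨ (X.H 0 j ≤ X.genPart j ∧ Y.H 0 j ≤ Y.genPart j) ∨
    ∃ k, n ≤ k + 1 ∧ X.genPart k ≠ ⊥

end Pool.Agent.Hodge81
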