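import Pool.Agent.Helper87.RF.Low

/-!
# Forms of degree at least `n - 2` on the fibre
-/

set_option autoImplicit false

namespace Pool.Agent.Helper87.RF

variable {ι : Type*} {K : Type*} [Field K] {V W : Type*} [AddCommGroup V] [Module K V]
  [AddCommGroup W] [Module K W] {v : ι → Module.End K V} {w : ι → Module.End K W}

theorem Stable.sup {S T : Submodule K V} (hS : Stable v S) (hT : Stable v T) :
    Stable v (S ⊔ T) := by
  intro i x hx
  obtain ⟨a, ha, b, hb, rfl⟩ := Submodule.mem_sup.1 hx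
  rw [map_add]
  exact Submodule.add_mem_sup (hS i a ha) (hT i b hb)

theorem Stable.comap {f : V →ₗ[K] W} (hf : f ∈ homs v w) {S : Submodule K W} (hS : Stable w S) :
    Stable v (S.comap f) := fun i x hx => by
  show f (v i x) ∈ S
  rw [hf i x]
  exact hS i _ hx

theorem Stable.map {f : V →ₗ[K] W} (hf : f ∈ homs v w) {S : Submodule K V} (hS : Stable v S) :
    Stable w (S.map f) := by
  rintro i _ ⟨x, hx, rfl⟩
  exact ⟨v i x, hS i x hx, hf i x⟩

/-- an injective equivariant map has an inverse on its image -/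
theorem emb_map {f : V →ₗ[K] W} (hf : f ∈ homs v w) {S : Submodule K V} (hS : Stable v S)
    (hinj : ∀ x ∈ S, f x = 0 → x = 0) : Emb (res w (hS.map hf)) (res v hS) := by
  set g : S →ₗ[K] S.map f := f.restrict (fun x hx => Submodule.mem_map_of_mem hx) with hg
  have hgh : g ∈ homs (res v hS) (res w (hS.map hf)) := fun i x => Subtype.ext (hf i x)
  have hb : Function.Bijective g := by
    constructor
    · rw [injective_iff_map_eq_zero]
      intro x hx
      exact Subtype.ext (hinj x x.2 (congrArg Subtype.val hx))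
    · rintro ⟨_, x, hx, rfl⟩
      exact ⟨⟨x, hx⟩, rfl⟩
  exact ⟨(LinearEquiv.ofBijective g hb).symm.toLinearMap,
    homs_symm (e := LinearEquiv.ofBijective g hb) hgh, (LinearEquiv.ofBijective g hb).symm.injective⟩

end Pool.Agent.Helper87.RF

namespace Pool.Agent.Hodge81

open Complex Module Pool.Agent.Helper87.RF HodgeRing

universe u

section one

variable {n : ℕ} {A : Type u} [Ring A] [Algebra ℂ A] {X : HodgeRing n A} {Γ : Type*} [Group Γ]
  (M : Monodromy X Γ)

theorem Monodromy.omega_homs (r : ℕ) : LinearMap.mulLeft ℂ (X.omega ^ r) ∈ homs M.ops M.ops := by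
  rintro (g | d) v
  · exact (M.act_omega_pow g r v).symm
  · exact X.omega_part_column d r v

theorem Monodromy.degree_homs (k : ℕ) : X.part (degSet k) ∈ homs M.ops M.ops := by
  rintro (g | d) v
  · exact (M.act_part_degree g k v).symm
  · exact X.part_comm _ _ v

/-- Lefschetz on holomorphic forms and their translates -/
theorem Monodromy.forms_lef {j : ℕ} (hj : j ≤ n) {v : A} (hv : v ∈ M.forms j)
    (h : X.omega ^ (n - j) * v = 0) : v = 0 := by
  refine X.eq_zero_of_columns fun d => ?_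
  have hvd : X.part (colSet d) v ∈ M.forms j := M.stable_forms j (Sum.inr d) v hv
  have hdeg := M.forms_le_degree j hvd
  have h1 : X.omega ^ (n - j) * X.part (colSet d) v = 0 := by
    rw [X.omega_part_column, h, map_zero]
  by_cases hex : ∃ p q : ℕ, p + q = j ∧ (p : ℤ) - q = d
  · obtain ⟨p, q, hpq, hd⟩ := hex
    refine X.lefschetz (X.column_mem_H hdeg (X.part_column_mem d v) hpq hd) (by omega) ?_
    rw [hpq]
    exact h1
  · rw [← X.degree_iff.1 hdeg, X.part_part]
    have : degSet j ∩ colSet d = ∅ := by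
      ext x
      simp only [degSet, colSet, Set.mem_inter_iff, Set.mem_ofPred_eq, Set.mem_empty_iff_false,
        iff_false]
      intro hx
      exact hex ⟨x.1, x.2, hx.1, hx.2⟩
    rw [this]
    refine X.induct (P := fun v => X.part ∅ v = 0) (fun p q a ha => ?_) (by simp)
      (fun a b ha hb => by rw [map_add, ha, hb, add_zero]) v
    exact X.part_of_notMem ha (Set.notMem_empty _)

/-- the form on a class and its Lefschetz translate -/
theorem HodgeRing.pos_str (X : HodgeRing n A) {p q : ℕ} (h : p + q + 2 = n) {a : A}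
    (ha : a ∈ X.H p q) (h3 : X.omega ^ 3 * a = 0) :
    ∃ r : ℝ, 0 ≤ r ∧ (r = 0 → a = 0) ∧ X.sesq a (X.omega ^ 2 * a) =
      (-1) ^ q * (-1) ^ ((p + q) * (p + q - 1) / 2) * (r : ℂ) := by
  by_cases h0 : a = 0
  · refine ⟨0, le_rfl, fun _ => h0, ?_⟩
    rw [h0, mul_zero, X.sesq_zero_left]
    simp
  obtain ⟨r, hr, he⟩ := X.hodgeRiemann p q a ha (by omega) (by
    rw [show n - (p + q) + 1 = 3 by omega]; exact h3) h0
  refine ⟨r, hr.le, fun h => absurd h hr.ne', ?_⟩
  rw [show n - (p + q) = 2 by omega] at he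
  have e0 : X.sesq a (X.omega ^ 2 * a) = I ^ (p + q) * X.int (X.omega ^ 2 * a * X.conj a) := by
    rw [sesq, X.dual_of_mem ha, X.conj_omega_pow, smul_mul_assoc, map_smul, smul_eq_mul,
      ← mul_assoc, X.omega_pow_central, mul_assoc]
  rw [e0, ← he]
  have e3 : ∀ m : ℕ, (-1 : ℂ) ^ m * (-1) ^ m = 1 := fun m => by rw [← mul_pow]; norm_num
  have e2 : (-I) ^ q = (-1) ^ q * I ^ q := by rw [neg_pow]
  have e7 := e3 q
  have e8 := e3 ((p + q) * (p + q - 1) / 2)
  rw [e2, pow_add]
  generalize (-1 : ℂ) ^ q = s at e7 ⊢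
  generalize (-1 : ℂ) ^ ((p + q) * (p + q - 1) / 2) = t at e8 ⊢
  generalize X.int (X.omega ^ 2 * a * X.conj a) = J
  have : s * t * (I ^ p * (s * I ^ q) * t * J) = (s * s) * (t * t) * (I ^ p * I ^ q * J) := by ring
  rw [this, e7, e8]
  ring

theorem HodgeRing.pos_mid (X : HodgeRing n A) {p q : ℕ} (h : p + q + 2 = n) {a : A}
    (ha : a ∈ X.H (p + 1) (q + 1)) (h3 : X.omega * a = 0) :
    ∃ r : ℝ, 0 ≤ r ∧ (r = 0 → a = 0) ∧ X.sesq a a =
      (-1) ^ q * (-1) ^ ((p + q) * (p + q - 1) / 2) * (r : ℂ) := by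
  by_cases h0 : a = 0
  · refine ⟨0, le_rfl, fun _ => h0, ?_⟩
    rw [h0, X.sesq_zero_left]
    simp
  obtain ⟨r, hr, he⟩ := X.hodgeRiemann (p + 1) (q + 1) a ha (by omega) (by
    rw [show n - (p + 1 + (q + 1)) + 1 = 1 by omega, pow_one]; exact h3) h0
  refine ⟨r, hr.le, fun h => absurd h hr.ne', ?_⟩
  rw [show n - (p + 1 + (q + 1)) = 0 by omega, pow_zero, one_mul] at he
  have e0 : X.sesq a a = I ^ (p + 1 + (q + 1)) * X.int (a * X.conj a) := by
    rw [sesq, X.dual_of_mem ha, smul_mul_assoc, map_smul, smul_eq_mul]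
  rw [e0, ← he]
  have e3 : ∀ m : ℕ, (-1 : ℂ) ^ m * (-1) ^ m = 1 := fun m => by rw [← mul_pow]; norm_num
  have e2 : (-I) ^ (q + 1) = (-1) ^ q * I ^ q * (-I) := by rw [pow_succ, neg_pow]
  have hs := sign_choose (p + q) 1
  rw [pow_one] at hs
  have e7 := e3 q
  have e8 := e3 ((p + q) * (p + q - 1) / 2)
  rw [show p + 1 + (q + 1) = p + q + 2 * 1 by ring, hs, e2]
  have e9 : I ^ (p + q + 2 * 1) = -(I ^ p * I ^ q) := by
    rw [mul_one, pow_add, I_sq, pow_add]
    ring
  have e10 : I ^ (p + 1) = I ^ p * I := pow_succ _ _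
  rw [e9, e10]
  generalize (-1 : ℂ) ^ q = s at e7 ⊢
  generalize (-1 : ℂ) ^ ((p + q) * (p + q - 1) / 2) = t at e8 ⊢
  generalize X.int (a * X.conj a) = J
  have hI : I * I = -1 := I_mul_I
  have : s * t * (I ^ p * I * (s * I ^ q * -I) * (t * -1) * J) =
      (s * s) * (t * t) * (I ^ p * I ^ q * J) * (I * I) := by ring
  rw [this, e7, e8, hI]
  ring

/-- the form on the sum of a class, a middle class and a translate -/
theorem HodgeRing.sesq_three (X : HodgeRing n A) {p q : ℕ} (h : p + q + 2 = n) {a u : A}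
    (ha : a ∈ X.H p q) (hu : u ∈ X.H (p + 1) (q + 1)) (z : ℝ) :
    X.sesq (a + u + (z : ℂ) • (X.omega ^ 2 * a)) (a + u + (z : ℂ) • (X.omega ^ 2 * a)) =
      2 * z * X.sesq a (X.omega ^ 2 * a) + X.sesq u u := by
  have h2 := X.pow_mem X.omega_mem ha 2
  have s1 : X.sesq a a = 0 := X.sesq_of_mem ha ha (by
    intro h'; simp only [Prod.mk.injEq] at h'; omega)
  have s2 : X.sesq a u = 0 := X.sesq_of_mem ha hu (by
    intro h'; simp only [Prod.mk.injEq] at h'; omega)
  have s3 : X.sesq u a = 0 := X.sesq_of_mem hu ha (by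
    intro h'; simp only [Prod.mk.injEq] at h'; omega)
  have s4 : X.sesq u (X.omega ^ 2 * a) = 0 := X.sesq_of_mem hu h2 (by
    intro h'; simp only [Prod.mk.injEq] at h'; omega)
  have s5 : X.sesq (X.omega ^ 2 * a) u = 0 := X.sesq_of_mem h2 hu (by
    intro h'; simp only [Prod.mk.injEq] at h'; omega)
  have s6 : X.sesq (X.omega ^ 2 * a) (X.omega ^ 2 * a) = 0 := X.sesq_of_mem h2 h2 (by
    intro h'; simp only [Prod.mk.injEq] at h'; omega)
  have s7 : X.sesq (X.omega ^ 2 * a) a = X.sesq a (X.omega ^ 2 * a) := by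
    rw [X.sesq_omega_pow]
    norm_num
  simp only [X.sesq_add_left, X.sesq_add_right, X.sesq_smul_left, X.sesq_smul_right, s1, s2, s3,
    s4, s5, s6, s7, Complex.conj_ofReal]
  ring

end one

end Pool.Agent.Hodge81
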