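import Pool.Agent.Helper87.RF.Red

/-!
# Forms on which the evaluation map is injective
-/

set_option autoImplicit false

namespace Pool.Agent.Hodge81

open Complex Module Pool.Agent.Helper87.RF HodgeRing

universe u

variable {n : ℕ} {A B : Type u} [Ring A] [Algebra ℂ A] [Ring B] [Algebra ℂ B]
  {X : HodgeRing n A} {Y : HodgeRing n B} {Γ : Type*} [Group Γ]

/-- a map preserving the columns commutes with the projections -/
theorem part_column_comm {f : A →ₗ[ℂ] B} (hf : ∀ d, ∀ v ∈ X.column d, f v ∈ Y.column d) (d : ℤ)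
    (v : A) : f (X.part (colSet d) v) = Y.part (colSet d) (f v) := by
  refine X.induct (P := fun v => f (X.part (colSet d) v) = Y.part (colSet d) (f v))
    (fun p q a ha => ?_) (by simp) (fun a b ha hb => by simp only [map_add, ha, hb]) v
  have h1 := hf ((p : ℤ) - q) a (X.mem_column rfl ha)
  by_cases h : (p : ℤ) - q = d
  · rw [X.part_of_mem ha (by exact h)]
    rw [h] at h1
    exact (Y.column_iff.1 h1).symm
  · rw [X.part_of_notMem ha (by exact h), map_zero, Y.part_column_ne h h1]

theorem IsMukaiIsometry.mem_column {phi : A ≃ₗ[ℂ] B} (h : IsMukaiIsometry X Y phi) (d : ℤ) (v : A)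
    (hv : v ∈ X.column d) : phi v ∈ Y.column d := by
  rw [← h.column d]
  exact Submodule.mem_map_of_mem hv

theorem Monodromy.act_expo (M : Monodromy X Γ) (g : Γ) (z : ℂ) :
    M.act g (X.expo z) = X.expo z := by
  unfold expo
  rw [map_sum]
  refine Finset.sum_congr rfl fun j _ => ?_
  rw [map_smul, map_pow, M.omega]

section

variable {P : PolyvectorAction X} {Q : PolyvectorAction Y} {phi : A ≃ₗ[ℂ] B}
  {M : Monodromy X Γ} {N : Monodromy Y Γ}

theorem evalE_column (hM : IsMukaiIsometry X Y phi) (d : ℤ) (y : B) (hy : y ∈ Y.column d) :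
    evalE X phi y ∈ X.column d := by
  rw [evalE_apply]
  have h1 := Y.mul_column hy (hM.mem_column 0 _ (expo_column X I))
  rw [add_zero] at h1
  have h2 := X.mul_column (hM.symm.mem_column d _ h1) (expo_column X (-I))
  rwa [add_zero] at h2

theorem evalE_act (hg : ∀ g v, phi (M.act g v) = N.act g (phi v)) (g : Γ) (y : B) :
    evalE X phi (N.act g y) = M.act g (evalE X phi y) := by
  have h1 : N.act g (phi (X.expo I)) = phi (X.expo I) := by rw [← hg, M.act_expo]
  have h2 : phi.symm (N.act g y * phi (X.expo I)) = M.act g (phi.symm (y * phi (X.expo I))) := by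
    rw [LinearEquiv.symm_apply_eq, hg, LinearEquiv.apply_symm_apply, map_mul (N.act g), h1]
  rw [evalE_apply, evalE_apply, h2, map_mul (M.act g), M.act_expo]

variable [FiniteDimensional ℂ A] [FiniteDimensional ℂ B]

theorem emb_low (h : IsHochschildIso P Q phi) (hM : IsMukaiIsometry X Y phi)
    (hg : ∀ g v, phi (M.act g v) = N.act g (phi v)) (hE : Eval P) {j : ℕ} (hj : j ≤ n)
    (hinj : ∀ y ∈ Y.H 0 j, evalE X phi y = 0 → y = 0) :
    Emb (res N.ops (N.stable_forms j)) (res M.ops (M.stable_forms j)) := by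
  set T : B →ₗ[ℂ] A := X.part (degSet j) ∘ₗ evalE X phi with hT
  have hT0 : ∀ y ∈ Y.H 0 j, T y = evalE X phi y := fun y hy =>
    X.part_of_mem (evalE_spec h hE hy).1 (by simp [degSet])
  have hTact : ∀ g y, T (N.act g y) = M.act g (T y) := fun g y => by
    rw [hT, LinearMap.comp_apply, LinearMap.comp_apply, evalE_act hg, M.act_part_degree]
  have hTcol : ∀ d y, T (Y.part (colSet d) y) = X.part (colSet d) (T y) := fun d y => by
    rw [hT, LinearMap.comp_apply, LinearMap.comp_apply,
      part_column_comm (evalE_column hM) d y, X.part_comm]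
  have hmem : N.forms j ≤ Y.degree j ⊓ (M.forms j).comap T := by
    refine N.forms_le (N.isSub_of_degree inf_le_left (fun g v hv => ⟨?_, ?_⟩)
      fun d v hv => ⟨?_, ?_⟩) fun v hv => ⟨Y.mem_degree (zero_add j) hv, ?_⟩
    · exact N.degree g j v hv.1
    · show T (N.act g v) ∈ M.forms j
      rw [hTact]
      exact M.act_mem_forms j g _ hv.2
    · show Y.part (colSet d) v ∈ Y.degree j
      rw [Y.degree_iff, Y.part_comm, Y.degree_iff.1 hv.1]
    · show T (Y.part (colSet d) v) ∈ M.forms j
      rw [hTcol]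
      exact M.stable_forms j (Sum.inr d) _ hv.2
    · show T v ∈ M.forms j
      rw [hT0 v hv]
      exact M.H_le_forms j (evalE_spec h hE hv).1
  set R : N.forms j →ₗ[ℂ] M.forms j := T.restrict fun v hv => (hmem hv).2 with hR
  have hRh : R ∈ homs (res N.ops (N.stable_forms j)) (res M.ops (M.stable_forms j)) := by
    rintro (g | d) v
    · exact Subtype.ext (hTact g v)
    · exact Subtype.ext (hTcol d v)
  refine ⟨R, hRh, ?_⟩
  rw [← LinearMap.ker_eq_bot]
  obtain ⟨C, hC, hcompl⟩ := N.forms_cr hj _ (Stable.ker hRh)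
  have hH : Y.H 0 j ≤ C.map (N.forms j).subtype := by
    intro y hy
    have hyF := N.H_le_forms j hy
    have hyKC : (⟨y, hyF⟩ : N.forms j) ∈ LinearMap.ker R ⊔ C := by
      rw [hcompl.sup_eq_top]; trivial
    obtain ⟨k, hk, c, hc, hkc⟩ := Submodule.mem_sup.1 hyKC
    have hcol : Y.part (colSet (-(j : ℤ))) y = y :=
      Y.part_of_mem hy (by simp [colSet])
    have hsum : (k : B) + (c : B) = y := congrArg Subtype.val hkc
    -- the component of `k`
    have hk0 : Y.part (colSet (-(j : ℤ))) (k : B) = 0 := by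
      have hk1 : res N.ops (N.stable_forms j) (Sum.inr (-(j : ℤ))) k ∈ LinearMap.ker R :=
        (Stable.ker hRh) _ k hk
      have hk2 : T (Y.part (colSet (-(j : ℤ))) (k : B)) = 0 := congrArg Subtype.val hk1
      have hk3 : Y.part (colSet (-(j : ℤ))) (k : B) ∈ Y.H 0 j := by
        refine Y.column_mem_H (k := j) ?_ (Y.part_column_mem _ _) (zero_add j) (by simp)
        exact N.forms_le_degree j (N.stable_forms j (Sum.inr (-(j : ℤ))) _ k.2)
      rw [hT0 _ hk3] at hk2
      exact hinj _ hk3 hk2
    have hy2 : Y.part (colSet (-(j : ℤ))) (c : B) = y := by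
      rw [← hcol, ← hsum, map_add, hk0, zero_add]
    refine ⟨res N.ops (N.stable_forms j) (Sum.inr (-(j : ℤ))) c, hC _ c hc, hy2⟩
  have hle : N.forms j ≤ C.map (N.forms j).subtype := by
    refine N.forms_le (N.isSub_of_degree ((Submodule.map_subtype_le _ _).trans
      (N.forms_le_degree j)) (fun g v hv => ?_) fun d v hv => ?_) hH
    · exact (N.stable_forms j).map_subtype hC (Sum.inl g) v hv
    · exact (N.stable_forms j).map_subtype hC (Sum.inr d) v hv
  have hCtop : C = ⊤ := by
    rw [eq_top_iff]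
    rintro v -
    obtain ⟨c, hc, hcv⟩ := hle v.2
    have : c = v := Subtype.ext hcv
    rwa [← this]
  have h1 := hcompl.disjoint
  rw [hCtop] at h1
  exact disjoint_top.1 h1

end

end Pool.Agent.Hodge81
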