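import Pool.Agent.Helper87.RF.Two

/-!
# Holomorphic forms on families of derived equivalent varieties
-/

set_option autoImplicit false

namespace Pool.Agent.Hodge81

open Complex Module Pool.Agent.Helper87.RF HodgeRing

universe u

section fibre

variable {n : ℕ} {A B : Type u} [Ring A] [Algebra ℂ A] [Ring B] [Algebra ℂ B]
  [FiniteDimensional ℂ A] [FiniteDimensional ℂ B]
  {X : HodgeRing n A} {Y : HodgeRing n B} {P : PolyvectorAction X} {Q : PolyvectorAction Y}
  {phi : A ≃ₗ[ℂ] B}

/-- the evaluation map is injective on the algebra generated by degrees one and two -/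
theorem evalE_inj_lowPart (h : IsHochschildIso P Q phi) (q : ℕ) {y : B} (hy : y ∈ Y.lowPart q)
    (h0 : evalE X phi y = 0) : y = 0 := by
  have h1 := lowPart_surj h P.eval P.kerOne P.kerTwo Q.eval Q.kerOne Q.kerTwo q
  have h2 := Submodule.finrank_mono h1
  rw [lowPart_finrank h P.eval P.kerOne P.kerTwo Q.eval Q.kerOne Q.kerTwo q,
    ← LinearMap.range_domRestrict] at h2
  have h3 := LinearMap.finrank_range_add_finrank_ker ((evalE X phi).domRestrict (Y.lowPart q))
  have h4 : finrank ℂ (LinearMap.ker ((evalE X phi).domRestrict (Y.lowPart q))) = 0 := by omega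
  rw [Submodule.finrank_eq_zero] at h4
  have h5 : (⟨y, hy⟩ : Y.lowPart q) ∈ LinearMap.ker ((evalE X phi).domRestrict (Y.lowPart q)) :=
    h0
  rw [h4, Submodule.mem_bot] at h5
  exact congrArg Subtype.val h5

omit [FiniteDimensional ℂ A] [FiniteDimensional ℂ B] in
/-- the evaluation map is injective if the rank does not vanish -/
theorem evalE_inj_rank (h : IsHochschildIso P Q phi) (hM : IsMukaiIsometry X Y phi)
    (hE : Eval P) (hr : Y.proj 0 0 (phi (X.expo I)) ≠ 0) (k : ℕ) {y : B} (hy : y ∈ Y.H 0 k)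
    (h0 : evalE X phi y = 0) : y = 0 := by
  obtain ⟨h1, h2⟩ := evalE_spec h hE hy
  have hcol : phi (X.expo I) ∈ Y.column 0 := by
    rw [← hM.column 0]
    exact Submodule.mem_map_of_mem (expo_column X I)
  rw [h0, zero_mul, map_zero] at h2
  have h3 := proj_mul hy hcol
  rw [h2, map_zero] at h3
  have h4 : Y.proj 0 0 (phi (X.expo I)) ∈ Y.H 0 0 := by
    have : ∀ b : B, Y.proj 0 0 b ∈ Y.H 0 0 := by
      refine Y.induct (P := fun b => Y.proj 0 0 b ∈ Y.H 0 0) (fun p q a ha => ?_) (by simp)
        (fun a b ha hb => by rw [map_add]; exact Submodule.add_mem _ ha hb)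
      rw [Y.proj_of_mem 0 0 ha]
      split_ifs with hpq
      · have e1 := (Prod.ext_iff.1 hpq).1
        have e2 := (Prod.ext_iff.1 hpq).2
        simp only at e1 e2
        subst e1 e2
        exact ha
      · exact Submodule.zero_mem _
    exact this _
  have hone : (1 : B) ≠ 0 := by
    intro h1'
    apply hr
    have : ∀ b : B, b = 0 := fun b => by rw [← one_mul b, h1', zero_mul]
    exact this _
  obtain ⟨c, hc⟩ : ∃ c : ℂ, Y.proj 0 0 (phi (X.expo I)) = c • (1 : B) := by
    have h5 := (finrank_eq_one_iff_of_nonzero' (⟨1, Y.one_mem⟩ : Y.H 0 0) (by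
      intro h6
      exact hone (congrArg Subtype.val h6))).1 Y.connected ⟨_, h4⟩
    obtain ⟨c, hc⟩ := h5
    exact ⟨c, (congrArg Subtype.val hc).symm⟩
  rw [hc, mul_smul_comm, mul_one] at h3
  rcases smul_eq_zero.1 h3.symm with h6 | h6
  · exfalso
    apply hr
    rw [hc, h6, zero_smul]
  · exact h6

omit [FiniteDimensional ℂ A] in
theorem genPart_eq_lowPart (X : HodgeRing n A) (q : ℕ) : X.genPart q = X.lowPart q := rfl

omit [FiniteDimensional ℂ A] in
/-- degrees at most two are generated in degrees one and two -/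
theorem H_le_genPart (X : HodgeRing n A) {j : ℕ} (hj : j ≤ 2) : X.H 0 j ≤ X.genPart j := by
  intro a ha
  refine ⟨?_, ha⟩
  obtain rfl | rfl | rfl : j = 0 ∨ j = 1 ∨ j = 2 := by omega
  · by_cases h1 : (1 : A) = 0
    · have : a = 0 := by rw [← one_mul a, h1, zero_mul]
      rw [this]
      exact zero_mem _
    · have h5 := (finrank_eq_one_iff_of_nonzero' (⟨1, X.one_mem⟩ : X.H 0 0) (by
        intro h6
        exact h1 (congrArg Subtype.val h6))).1 X.connected ⟨a, ha⟩
      obtain ⟨c, hc⟩ := h5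
      have : a = c • (1 : A) := (congrArg Subtype.val hc).symm
      rw [this]
      exact Submodule.smul_mem _ _ X.genAlg.one_mem
  · exact Algebra.subset_adjoin (Or.inl ha)
  · exact Algebra.subset_adjoin (Or.inr ha)

/-- the evaluation maps are injective in every degree if the algebra generated by one- and
two-forms reaches degree `n - 1` -/
theorem evalE_inj_reach (h : IsHochschildIso P Q phi) (hM : IsMukaiIsometry X Y phi) {q : ℕ}
    (hq : n ≤ q + 1) (hne : X.genPart q ≠ ⊥) (k : ℕ) {y : B} (hy : y ∈ Y.H 0 k)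
    (h0 : evalE X phi y = 0) : y = 0 := by
  obtain ⟨x, hx, hx0⟩ := (Submodule.ne_bot_iff _).1 hne
  obtain ⟨y', hy', hxy⟩ :=
    lowPart_surj h P.eval P.kerOne P.kerTwo Q.eval Q.kerOne Q.kerTwo q hx
  refine evalE_inj_rank h hM P.eval (rank_ne h hM P.eval hq hy'.2 ?_) k hy h0
  rw [hxy]
  exact hx0

variable {Γ : Type*} [Group Γ] {M : Monodromy X Γ} {N : Monodromy Y Γ}

theorem isHochschildIso_act_symm (hg : ∀ g v, phi (M.act g v) = N.act g (phi v)) (g : Γ)
    (v : B) : phi.symm (N.act g v) = M.act g (phi.symm v) := by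
  rw [LinearEquiv.symm_apply_eq, hg, LinearEquiv.apply_symm_apply]

/-- the evaluation maps are injective in degree `j` -/
theorem iso_low (h : IsHochschildIso P Q phi) (hM : IsMukaiIsometry X Y phi)
    (hg : ∀ g v, phi (M.act g v) = N.act g (phi v)) {j : ℕ} (hj : j ≤ n)
    (h1 : ∀ y ∈ Y.H 0 j, evalE X phi y = 0 → y = 0)
    (h2 : ∀ x ∈ X.H 0 j, evalE Y phi.symm x = 0 → x = 0) :
    (M.formsRep j).Iso (N.formsRep j) :=
  Monodromy.iso_of_emb
    (emb_low h.symm hM.symm (isHochschildIso_act_symm hg) Q.eval hj h2)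
    (emb_low h hM hg P.eval hj h1)

theorem iso_above {j : ℕ} (hj : n < j) : (M.formsRep j).Iso (N.formsRep j) := by
  have h1 := M.forms_eq_bot hj
  have h2 := N.forms_eq_bot hj
  have s1 : Subsingleton (M.forms j) := by rw [h1]; infer_instance
  have s2 : Subsingleton (N.forms j) := by rw [h2]; infer_instance
  exact Monodromy.iso_of_emb
    ⟨0, Submodule.zero_mem _, Function.injective_of_subsingleton _⟩
    ⟨0, Submodule.zero_mem _, Function.injective_of_subsingleton _⟩

omit [FiniteDimensional ℂ A] [FiniteDimensional ℂ B] in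
theorem symm_symm_phi : phi.symm.symm = phi := LinearEquiv.symm_symm phi

/-- the fibre theorem -/
theorem fibre_main (h : IsHochschildIso P Q phi) (hM : IsMukaiIsometry X Y phi)
    (hg : ∀ g v, phi (M.act g v) = N.act g (phi v)) {j : ℕ}
    (hj : j ≤ 2 ∨ n ≤ j + 2 ∨ (X.H 0 j ≤ X.genPart j ∧ Y.H 0 j ≤ Y.genPart j) ∨
      ∃ k, n ≤ k + 1 ∧ X.genPart k ≠ ⊥) :
    (M.formsRep j).Iso (N.formsRep j) := by
  rcases Nat.lt_or_ge n j with hnj | hnj
  · exact iso_above hnj
  have hgen : (X.H 0 j ≤ X.genPart j ∧ Y.H 0 j ≤ Y.genPart j) →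
      (M.formsRep j).Iso (N.formsRep j) := by
    rintro ⟨hX, hY⟩
    exact iso_low h hM hg hnj (fun y hy h0 => evalE_inj_lowPart h j (hY hy) h0)
      (fun x hx h0 => evalE_inj_lowPart h.symm j (hX hx) h0)
  rcases hj with h2 | htop | hgen' | ⟨k, hk, hne⟩
  · exact hgen ⟨H_le_genPart X h2, H_le_genPart Y h2⟩
  · obtain rfl | h1 | h2 : j = n ∨ j + 1 = n ∨ j + 2 = n := by omega
    · exact Monodromy.iso_of_emb (emb_top hM hg)
        (emb_top hM.symm (isHochschildIso_act_symm hg))
    · exact Monodromy.iso_of_emb (emb_one hM hg h1)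
        (emb_one hM.symm (isHochschildIso_act_symm hg) h1)
    · exact Monodromy.iso_of_emb (emb_two hM hg h2)
        (emb_two hM.symm (isHochschildIso_act_symm hg) h2)
  · exact hgen hgen'
  · have hne' : Y.genPart k ≠ ⊥ := by
      intro h0
      have h3 := lowPart_finrank h P.eval P.kerOne P.kerTwo Q.eval Q.kerOne Q.kerTwo k
      rw [← genPart_eq_lowPart, ← genPart_eq_lowPart, h0, finrank_bot] at h3
      exact hne (Submodule.finrank_eq_zero.1 h3)
    exact iso_low h hM hg hnj (fun y hy h0 => evalE_inj_reach h hM hk hne j hy h0)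
      (fun x hx h0 => evalE_inj_reach h.symm hM.symm hk hne' j hx h0)

end fibre

end Pool.Agent.Hodge81
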