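import Pool.Agent.Helper87.RF.Defs
import Pool.Agent.Helper87.RF.Cat

/-!
# Projections onto sums of pieces of the Hodge decomposition
-/

set_option autoImplicit false

namespace Pool.Agent.Hodge81

open Complex Module

namespace HodgeRing

variable {n : ℕ} {A : Type*} [Ring A] [Algebra ℂ A] (X : HodgeRing n A)

open Classical in
/-- the projection onto `⨁_{(p,q) ∈ S} H p q` -/
noncomputable def part (S : Set (ℕ × ℕ)) : A →ₗ[ℂ] A :=
  (DirectSum.toModule ℂ (ℕ × ℕ) A
      (fun x => if x ∈ S then (X.H x.1 x.2).subtype else 0)) ∘ₗ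
    (LinearEquiv.ofBijective (DirectSum.coeLinearMap (fun x : ℕ × ℕ => X.H x.1 x.2))
      X.internal).symm.toLinearMap

theorem part_of_mem {S : Set (ℕ × ℕ)} {p q : ℕ} {a : A} (ha : a ∈ X.H p q)
    (h : (p, q) ∈ S) : X.part S a = a := by
  have h1 : (LinearEquiv.ofBijective (DirectSum.coeLinearMap (fun x : ℕ × ℕ => X.H x.1 x.2))
      X.internal).symm a = DirectSum.lof ℂ (ℕ × ℕ) (fun x => X.H x.1 x.2) (p, q) ⟨a, ha⟩ := by
    rw [LinearEquiv.symm_apply_eq]
    exact (DirectSum.coeLinearMap_lof (fun x : ℕ × ℕ => X.H x.1 x.2) (p, q) ⟨a, ha⟩).symm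
  rw [part, LinearMap.comp_apply, LinearEquiv.coe_coe, h1, DirectSum.toModule_lof, if_pos h]
  rfl

theorem part_of_notMem {S : Set (ℕ × ℕ)} {p q : ℕ} {a : A} (ha : a ∈ X.H p q)
    (h : (p, q) ∉ S) : X.part S a = 0 := by
  have h1 : (LinearEquiv.ofBijective (DirectSum.coeLinearMap (fun x : ℕ × ℕ => X.H x.1 x.2))
      X.internal).symm a = DirectSum.lof ℂ (ℕ × ℕ) (fun x => X.H x.1 x.2) (p, q) ⟨a, ha⟩ := by
    rw [LinearEquiv.symm_apply_eq]
    exact (DirectSum.coeLinearMap_lof (fun x : ℕ × ℕ => X.H x.1 x.2) (p, q) ⟨a, ha⟩).symm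
  rw [part, LinearMap.comp_apply, LinearEquiv.coe_coe, h1, DirectSum.toModule_lof, if_neg h]
  rfl

theorem part_part (S T : Set (ℕ × ℕ)) (v : A) : X.part S (X.part T v) = X.part (S ∩ T) v := by
  refine X.induct (P := fun v => X.part S (X.part T v) = X.part (S ∩ T) v)
    (fun p q a ha => ?_) (by simp) (fun a b ha hb => by simp only [map_add, ha, hb]) v
  by_cases hT : (p, q) ∈ T
  · rw [X.part_of_mem ha hT]
    by_cases hS : (p, q) ∈ S
    · rw [X.part_of_mem ha hS, X.part_of_mem (S := S ∩ T) ha ⟨hS, hT⟩]
    · rw [X.part_of_notMem ha hS, X.part_of_notMem ha fun h => hS h.1]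
  · rw [X.part_of_notMem ha hT, map_zero, X.part_of_notMem ha fun h => hT h.2]

theorem part_comm (S T : Set (ℕ × ℕ)) (v : A) :
    X.part S (X.part T v) = X.part T (X.part S v) := by
  rw [X.part_part, X.part_part, Set.inter_comm]

theorem part_single_mem (x : ℕ × ℕ) (v : A) : X.part {x} v ∈ X.H x.1 x.2 := by
  refine X.induct (P := fun v => X.part {x} v ∈ X.H x.1 x.2)
    (fun p q a ha => ?_) (by rw [map_zero]; exact zero_mem _)
    (fun a b ha hb => by rw [map_add]; exact add_mem ha hb) v
  by_cases h : (p, q) = x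
  · rw [X.part_of_mem ha h]
    subst h
    exact ha
  · rw [X.part_of_notMem ha h]
    exact zero_mem _

/-- the box containing all the nonzero pieces -/
def box (n : ℕ) : Finset (ℕ × ℕ) := Finset.range (n + 1) ×ˢ Finset.range (n + 1)

open Classical in
theorem part_eq_sum (S : Set (ℕ × ℕ)) (v : A) :
    X.part S v = ∑ x ∈ (box n).filter (· ∈ S), X.part {x} v := by
  refine X.induct (P := fun v => X.part S v = ∑ x ∈ (box n).filter (· ∈ S), X.part {x} v)
    (fun p q a ha => ?_) (by simp)
    (fun a b ha hb => by simp only [map_add, Finset.sum_add_distrib, ha, hb]) v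
  by_cases hb : (p, q) ∈ box n
  · by_cases hS : (p, q) ∈ S
    · rw [X.part_of_mem ha hS, Finset.sum_eq_single_of_mem (p, q) (Finset.mem_filter.2 ⟨hb, hS⟩),
        X.part_of_mem ha (Set.mem_singleton _)]
      intro x _ hx
      exact X.part_of_notMem ha fun h => hx (Set.mem_singleton_iff.1 h).symm
    · rw [X.part_of_notMem ha hS]
      refine (Finset.sum_eq_zero fun x hx => ?_).symm
      exact X.part_of_notMem ha fun h => hS (by
        rw [Set.mem_singleton_iff.1 h]
        exact (Finset.mem_filter.1 hx).2)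
  · have h0 : a = 0 := by
      have h1 : n < p ∨ n < q := by
        by_contra hcon
        push Not at hcon
        exact hb (Finset.mem_product.2 ⟨Finset.mem_range.2 (by omega),
          Finset.mem_range.2 (by omega)⟩)
      rw [X.bounded p q h1] at ha
      simpa using ha
    rw [h0]
    simp

theorem part_univ (v : A) : X.part Set.univ v = v := by
  refine X.induct (P := fun v => X.part Set.univ v = v)
    (fun p q a ha => X.part_of_mem ha trivial) (by simp)
    (fun a b ha hb => by rw [map_add, ha, hb]) v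

/-- total degree `k` -/
def degSet (k : ℕ) : Set (ℕ × ℕ) := {x | x.1 + x.2 = k}

/-- column `d` -/
def colSet (d : ℤ) : Set (ℕ × ℕ) := {x | (x.1 : ℤ) - (x.2 : ℤ) = d}

theorem mem_degree {k p q : ℕ} (h : p + q = k) {v : A} (hv : v ∈ X.H p q) : v ∈ X.degree k :=
  le_iSup₂ (f := fun (x : ℕ × ℕ) (_ : x.1 + x.2 = k) => X.H x.1 x.2) (p, q) h hv

theorem degree_induct {k : ℕ} {P : A → Prop}
    (h : ∀ p q : ℕ, p + q = k → ∀ a ∈ X.H p q, P a) (h0 : P 0)
    (hadd : ∀ a b, P a → P b → P (a + b)) {a : A} (ha : a ∈ X.degree k) : P a := by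
  have ha' : a ∈ ⨆ x : {x : ℕ × ℕ // x.1 + x.2 = k}, X.H x.1.1 x.1.2 := by
    rw [iSup_subtype]
    exact ha
  induction ha' using Submodule.iSup_induction' with
  | mem x b hb => exact h _ _ x.2 b hb
  | zero => exact h0
  | add b c hb' hc' hb hc =>
    have e : (⨆ x : {x : ℕ × ℕ // x.1 + x.2 = k}, X.H x.1.1 x.1.2) = X.degree k := by
      rw [iSup_subtype]
      rfl
    exact hadd b c (hb (e ▸ hb')) (hc (e ▸ hc'))

theorem degree_iff {k : ℕ} {v : A} : v ∈ X.degree k ↔ X.part (degSet k) v = v := by
  constructor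
  · intro hv
    refine X.degree_induct (P := fun v => X.part (degSet k) v = v)
      (fun p q h a ha => X.part_of_mem ha h) (by simp)
      (fun a b ha hb => by rw [map_add, ha, hb]) hv
  · intro hv
    rw [← hv]
    refine X.induct (P := fun v => X.part (degSet k) v ∈ X.degree k)
      (fun p q a ha => ?_) (by rw [map_zero]; exact zero_mem _)
      (fun a b ha hb => by rw [map_add]; exact add_mem ha hb) v
    by_cases h : (p, q) ∈ degSet k
    · rw [X.part_of_mem ha h]
      exact X.mem_degree h ha
    · rw [X.part_of_notMem ha h]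
      exact zero_mem _

theorem column_iff {d : ℤ} {v : A} : v ∈ X.column d ↔ X.part (colSet d) v = v := by
  constructor
  · intro hv
    refine X.column_induct (P := fun v => X.part (colSet d) v = v)
      (fun p q h a ha => X.part_of_mem ha h) (by simp)
      (fun a b ha hb => by rw [map_add, ha, hb]) hv
  · intro hv
    rw [← hv]
    refine X.induct (P := fun v => X.part (colSet d) v ∈ X.column d)
      (fun p q a ha => ?_) (by rw [map_zero]; exact zero_mem _)
      (fun a b ha hb => by rw [map_add]; exact add_mem ha hb) v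
    by_cases h : (p, q) ∈ colSet d
    · rw [X.part_of_mem ha h]
      exact X.mem_column h ha
    · rw [X.part_of_notMem ha h]
      exact zero_mem _

theorem part_degree_ne {k l : ℕ} (h : k ≠ l) {v : A} (hv : v ∈ X.degree k) :
    X.part (degSet l) v = 0 := by
  rw [X.degree_iff] at hv
  rw [← hv, X.part_part]
  have : degSet l ∩ degSet k = ∅ := by
    ext x
    simp only [degSet, Set.mem_inter_iff, Set.mem_ofPred_eq, Set.mem_empty_iff_false, iff_false]
    omega
  rw [this]
  refine X.induct (P := fun v => X.part ∅ v = 0) (fun p q a ha => ?_) (by simp)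
    (fun a b ha hb => by rw [map_add, ha, hb, add_zero]) v
  exact X.part_of_notMem ha (Set.notMem_empty _)

theorem part_column_ne {k l : ℤ} (h : k ≠ l) {v : A} (hv : v ∈ X.column k) :
    X.part (colSet l) v = 0 := by
  rw [X.column_iff] at hv
  rw [← hv, X.part_part]
  have : colSet l ∩ colSet k = ∅ := by
    ext x
    simp only [colSet, Set.mem_inter_iff, Set.mem_ofPred_eq, Set.mem_empty_iff_false, iff_false]
    omega
  rw [this]
  refine X.induct (P := fun v => X.part ∅ v = 0) (fun p q a ha => ?_) (by simp)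
    (fun a b ha hb => by rw [map_add, ha, hb, add_zero]) v
  exact X.part_of_notMem ha (Set.notMem_empty _)

theorem part_degree_mem (k : ℕ) (v : A) : X.part (degSet k) v ∈ X.degree k := by
  rw [X.degree_iff, X.part_part, Set.inter_self]

theorem part_column_mem (d : ℤ) (v : A) : X.part (colSet d) v ∈ X.column d := by
  rw [X.column_iff, X.part_part, Set.inter_self]

/-- on elements of degree `k` the component in `H p q` is a component in a column -/
theorem part_single_of_degree {k : ℕ} {v : A} (hv : v ∈ X.degree k) (x : ℕ × ℕ) :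
    X.part {x} v = if x.1 + x.2 = k then X.part (colSet ((x.1 : ℤ) - x.2)) v else 0 := by
  refine X.degree_induct (P := fun v => X.part {x} v =
    if x.1 + x.2 = k then X.part (colSet ((x.1 : ℤ) - x.2)) v else 0)
    (fun p q h a ha => ?_) (by simp) (fun a b ha hb => ?_) hv
  · by_cases hx : (p, q) = x
    · subst hx
      rw [if_pos h, X.part_of_mem ha (Set.mem_singleton _), X.part_of_mem ha (by simp [colSet])]
    · rw [X.part_of_notMem ha hx]
      split_ifs with hk
      · refine (X.part_of_notMem ha fun hc => hx ?_).symm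
        simp only [colSet, Set.mem_ofPred_eq] at hc
        exact Prod.ext (by simp only; omega) (by simp only; omega)
      · rfl
  · simp only [map_add, ha, hb]
    split_ifs
    · rfl
    · rw [add_zero]

/-- a vector of degree `k` all of whose column components vanish is zero -/
theorem eq_zero_of_columns {v : A} (h : ∀ d, X.part (colSet d) v = 0) : v = 0 := by
  classical
  rw [← X.part_univ v, X.part_eq_sum]
  refine Finset.sum_eq_zero fun x _ => ?_
  have h1 : ({x} : Set (ℕ × ℕ)) = {x} ∩ colSet ((x.1 : ℤ) - x.2) := by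
    rw [Set.inter_eq_left.2 (by
      intro y hy
      rw [Set.mem_singleton_iff.1 hy]
      simp [colSet])]
  rw [h1, ← X.part_part, h, map_zero]

/-- the decomposition into columns -/
theorem column_mem_H {k : ℕ} {v : A} (hv : v ∈ X.degree k) {d : ℤ} (hd : v ∈ X.column d)
    {p q : ℕ} (h1 : p + q = k) (h2 : (p : ℤ) - q = d) : v ∈ X.H p q := by
  have h3 := X.part_single_of_degree hv (p, q)
  rw [if_pos h1, h2, X.column_iff.1 hd] at h3
  rw [← h3]
  exact X.part_single_mem (p, q) v

theorem mul_H_column {d : ℤ} {p q : ℕ} {a v : A} (ha : a ∈ X.H p q) (hv : v ∈ X.column d) :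
    a * v ∈ X.column ((p : ℤ) - q + d) := by
  refine X.column_induct (P := fun v => a * v ∈ X.column ((p : ℤ) - q + d))
    (fun p' q' h b hb => ?_) (by rw [mul_zero]; exact zero_mem _)
    (fun b c hb hc => by rw [mul_add]; exact add_mem hb hc) hv
  refine X.mem_column ?_ (X.mul_mem _ _ _ _ _ _ ha hb)
  push_cast
  omega

theorem mul_column {d d' : ℤ} {a v : A} (ha : a ∈ X.column d) (hv : v ∈ X.column d') :
    a * v ∈ X.column (d + d') := by
  refine X.column_induct (P := fun a => a * v ∈ X.column (d + d'))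
    (fun p q h b hb => ?_) (by rw [zero_mul]; exact zero_mem _)
    (fun b c hb hc => by rw [add_mul]; exact add_mem hb hc) ha
  have := X.mul_H_column hb hv
  rwa [h] at this

/-- `omega` shifts the bidegree -/
theorem omega_part_H {p q : ℕ} (k : ℕ) (v : A) :
    X.omega ^ k * X.part {(p, q)} v = X.part {(p + k, q + k)} (X.omega ^ k * v) := by
  refine X.induct (P := fun v => X.omega ^ k * X.part {(p, q)} v =
    X.part {(p + k, q + k)} (X.omega ^ k * v))
    (fun p' q' a ha => ?_) (by simp) (fun a b ha hb => by simp only [map_add, mul_add, ha, hb]) v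
  have h1 := X.pow_mem X.omega_mem ha k
  by_cases h : (p', q') = (p, q)
  · rw [X.part_of_mem ha h]
    simp only [Prod.mk.injEq] at h
    obtain ⟨rfl, rfl⟩ := h
    rw [X.part_of_mem h1 (Set.mem_singleton _)]
  · rw [X.part_of_notMem ha h, mul_zero, X.part_of_notMem h1]
    intro h2
    simp only [Set.mem_singleton_iff, Prod.mk.injEq] at h2
    exact h (Prod.ext (by simp only; omega) (by simp only; omega))

theorem omega_part_column (d : ℤ) (k : ℕ) (v : A) :
    X.omega ^ k * X.part (colSet d) v = X.part (colSet d) (X.omega ^ k * v) := by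
  refine X.induct (P := fun v => X.omega ^ k * X.part (colSet d) v =
    X.part (colSet d) (X.omega ^ k * v))
    (fun p q a ha => ?_) (by simp) (fun a b ha hb => by simp only [map_add, mul_add, ha, hb]) v
  have h1 := X.pow_mem X.omega_mem ha k
  by_cases h : (p, q) ∈ colSet d
  · rw [X.part_of_mem ha h, X.part_of_mem h1]
    simp only [colSet, Set.mem_ofPred_eq] at h ⊢
    push_cast
    omega
  · rw [X.part_of_notMem ha h, mul_zero, X.part_of_notMem h1]
    simp only [colSet, Set.mem_ofPred_eq] at h ⊢
    push_cast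
    omega

theorem omega_pow_degree {k l : ℕ} (m : ℕ) (h : k + 2 * m = l) {v : A} (hv : v ∈ X.degree k) :
    X.omega ^ m * v ∈ X.degree l := by
  refine X.degree_induct (P := fun v => X.omega ^ m * v ∈ X.degree l)
    (fun p q hpq a ha => X.mem_degree (by omega) (X.pow_mem X.omega_mem ha m))
    (by rw [mul_zero]; exact zero_mem _)
    (fun a b ha hb => by rw [mul_add]; exact add_mem ha hb) hv

end HodgeRing

end Pool.Agent.Hodge81
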