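import Pool.Agent.Helper87.RF.Basic

/-!
# Complete reducibility of the variations generated by holomorphic forms
-/

set_option autoImplicit false

namespace Pool.Agent.Hodge81

open Complex Module Pool.Agent.Helper87.RF HodgeRing

universe u

variable {n : ℕ} {A : Type u} [Ring A] [Algebra ℂ A] {X : HodgeRing n A} {Γ : Type*} [Group Γ]
  (M : Monodromy X Γ)

namespace Monodromy

/-- the pairing with a fixed vector -/
noncomputable def pairL (j : ℕ) (b : A) : M.forms j →ₗ[ℂ] ℂ :=
  X.int ∘ₗ LinearMap.mulRight ℂ (X.conj b) ∘ₗ LinearMap.mulLeft ℂ (X.omega ^ (n - j)) ∘ₗ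
    (M.forms j).subtype

theorem pairL_apply (j : ℕ) (b : A) (t : M.forms j) :
    M.pairL j b t = X.int (X.omega ^ (n - j) * t * X.conj b) := rfl

/-- the vectors orthogonal to a fixed one -/
def orthTo (j : ℕ) (t : A) : Submodule ℂ (M.forms j) where
  carrier := {s | X.int (X.omega ^ (n - j) * t * X.conj s) = 0}
  add_mem' {a b} ha hb := by
    simp only [Set.mem_ofPred_eq] at ha hb ⊢
    rw [Submodule.coe_add, map_add, mul_add, map_add, ha, hb, add_zero]
  zero_mem' := by simp
  smul_mem' c a ha := by
    simp only [Set.mem_ofPred_eq] at ha ⊢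
    rw [Submodule.coe_smul, X.conj_smul, mul_smul_comm, map_smul, ha, smul_zero]

variable [FiniteDimensional ℂ A]

theorem forms_cr {j : ℕ} (hj : j ≤ n) : CR (res M.ops (M.stable_forms j)) := by
  intro S hS
  have hfree : Module.Free ℂ S := Module.Free.of_divisionRing ℂ S
  set b := Module.finBasis ℂ S with hb
  set th : M.forms j →ₗ[ℂ] (Fin (finrank ℂ S) → ℂ) :=
    LinearMap.pi fun i => M.pairL j ((b i : M.forms j) : A) with hth
  have hmem : ∀ t : M.forms j, t ∈ LinearMap.ker th ↔
      ∀ s ∈ S, X.int (X.omega ^ (n - j) * t * X.conj (s : A)) = 0 := by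
    intro t
    constructor
    · intro ht
      have h1 : ∀ i, ((b i : S) : M.forms j) ∈ M.orthTo j t := by
        intro i
        exact congrFun ht i
      intro s hs
      have h2 : s = ∑ i, (b.repr ⟨s, hs⟩ i) • ((b i : S) : M.forms j) := by
        have h3 := b.sum_repr ⟨s, hs⟩
        have h4 := congrArg (fun z : S => (z : M.forms j)) h3
        simp only [Submodule.coe_sum, Submodule.coe_smul] at h4
        exact h4.symm
      have h5 : s ∈ M.orthTo j t := by
        rw [h2]
        exact Submodule.sum_mem _ fun i _ => Submodule.smul_mem _ _ (h1 i)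
      exact h5
    · intro h
      rw [LinearMap.mem_ker]
      ext i
      exact h _ (b i).2
  have hst : Stable (res M.ops (M.stable_forms j)) (LinearMap.ker th) := by
    rintro (g | d) t ht
    · rw [hmem] at ht ⊢
      intro s hs
      have h1 := ht _ (hS (Sum.inl g⁻¹) s hs)
      rw [res_apply, M.ops_inl] at h1 ⊢
      rw [M.int_act]
      exact h1
    · rw [hmem] at ht ⊢
      intro s hs
      have h1 := ht _ (hS (Sum.inr d) s hs)
      rw [res_apply, M.ops_inr] at h1 ⊢
      rw [X.int_column]
      exact h1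
  have hdisj : Disjoint S (LinearMap.ker th) := by
    rw [Submodule.disjoint_def]
    intro x hx hxt
    rw [hmem] at hxt
    apply Subtype.ext
    refine M.eq_zero_of_orth hj (V := S.map (M.forms j).subtype) (Submodule.map_subtype_le _ _)
      ((M.stable_forms j).map_subtype hS) ⟨x, hx, rfl⟩ ?_
    rintro _ ⟨y, hy, rfl⟩
    exact hxt y hy
  refine ⟨LinearMap.ker th, hst, hdisj, ?_⟩
  rw [codisjoint_iff]
  apply Submodule.eq_top_of_finrank_eq
  have h1 := Submodule.finrank_sup_add_finrank_inf_eq S (LinearMap.ker th)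
  rw [hdisj.eq_bot, finrank_bot, add_zero] at h1
  have h2 := LinearMap.finrank_range_add_finrank_ker th
  have h3 := Submodule.finrank_le (LinearMap.range th)
  rw [Module.finrank_fin_fun] at h3
  have h4 := Submodule.finrank_le (S ⊔ LinearMap.ker th)
  omega

omit [FiniteDimensional ℂ A] in
theorem forms_eq_bot {j : ℕ} (hj : n < j) : M.forms j = ⊥ := by
  rw [eq_bot_iff]
  refine M.forms_le ?_ (by rw [X.bounded _ _ (Or.inr hj)])
  exact M.isSub_iff.2 ⟨fun g v hv => by
    rw [Submodule.mem_bot] at hv ⊢
    rw [hv, map_zero], fun x v hv => by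
    rw [Submodule.mem_bot] at hv ⊢
    rw [hv, map_zero]⟩

end Monodromy

/-- an equivariant isomorphism of the variations generated by holomorphic `j`-forms -/
theorem Monodromy.iso_of_emb {m : ℕ} {B : Type u} [Ring B] [Algebra ℂ B]
    [FiniteDimensional ℂ A] [FiniteDimensional ℂ B] {Y : HodgeRing m B} {M : Monodromy X Γ}
    {N : Monodromy Y Γ} {j : ℕ}
    (h1 : Emb (res M.ops (M.stable_forms j)) (res N.ops (N.stable_forms j)))
    (h2 : Emb (res N.ops (N.stable_forms j)) (res M.ops (M.stable_forms j))) :
    (M.formsRep j).Iso (N.formsRep j) := by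
  obtain ⟨e, he⟩ := h1.equiv h2
  have hcol : ∀ d (v : M.forms j), Y.part (colSet d) (e v : B) =
      (e ⟨X.part (colSet d) v, M.stable_forms j (Sum.inr d) _ v.2⟩ : B) := fun d v =>
    (congrArg Subtype.val (he (Sum.inr d) v)).symm
  refine ⟨e, fun g v => he (Sum.inl g) v, fun p q (v : M.forms j) => ?_⟩
  show (v : A) ∈ X.H p q ↔ (e v : B) ∈ Y.H p q
  have hX := M.forms_le_degree j v.2
  have hY := N.forms_le_degree j (e v).2
  by_cases hv0 : v = 0
  · rw [hv0, map_zero]
    simp
  have hne : e v ≠ 0 := fun h => hv0 (e.map_eq_zero_iff.1 h)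
  constructor
  · intro hv
    have hpq : p + q = j := by
      by_contra hcon
      have h3 := X.part_degree_ne hcon (X.mem_degree rfl hv)
      rw [X.degree_iff.1 hX] at h3
      exact hv0 (Subtype.ext h3)
    have h4 := hcol ((p : ℤ) - q) v
    have h5 : X.part (colSet ((p : ℤ) - q)) (v : A) = v := X.part_of_mem hv (by simp [colSet])
    have h6 : (⟨X.part (colSet ((p : ℤ) - q)) v, M.stable_forms j (Sum.inr _) _ v.2⟩ :
        M.forms j) = v := Subtype.ext h5
    rw [h6] at h4
    exact Y.column_mem_H hY (Y.column_iff.2 h4) hpq rfl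
  · intro hv
    have hpq : p + q = j := by
      by_contra hcon
      have h3 := Y.part_degree_ne hcon (Y.mem_degree rfl hv)
      rw [Y.degree_iff.1 hY] at h3
      exact hne (Subtype.ext h3)
    have h4 := hcol ((p : ℤ) - q) v
    have h5 : Y.part (colSet ((p : ℤ) - q)) (e v : B) = e v :=
      Y.part_of_mem hv (by simp [colSet])
    rw [h5] at h4
    have h6 := e.injective (Subtype.ext h4)
    have h7 : X.part (colSet ((p : ℤ) - q)) (v : A) = v := (congrArg Subtype.val h6).symm
    exact X.column_mem_H hX (X.column_iff.2 h7) hpq rfl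

end Pool.Agent.Hodge81
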