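import Pool.Agent.Helper87.RF.High

/-!
# Comparison in degrees `n`, `n - 1`, `n - 2`
-/

set_option autoImplicit false

namespace Pool.Agent.Hodge81

open Complex Module Pool.Agent.Helper87.RF HodgeRing

universe u

variable {n : ℕ} {A B : Type u} [Ring A] [Algebra ℂ A] [Ring B] [Algebra ℂ B]
  {X : HodgeRing n A} {Y : HodgeRing n B} {Γ : Type*} [Group Γ] {phi : A ≃ₗ[ℂ] B}
  {M : Monodromy X Γ} {N : Monodromy Y Γ}

theorem IsMukaiIsometry.sesq (hM : IsMukaiIsometry X Y phi) (v w : A) :
    Y.sesq (phi v) (phi w) = X.sesq v w := by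
  have h := hM.h0 v (X.conj w)
  rw [hM.conj] at h
  exact h

theorem phi_homs (hM : IsMukaiIsometry X Y phi)
    (hg : ∀ g v, phi (M.act g v) = N.act g (phi v)) : phi.toLinearMap ∈ homs M.ops N.ops := by
  rintro (g | d) v
  · exact hg g v
  · exact part_column_comm (f := phi.toLinearMap) hM.mem_column d v

/-- images of holomorphic forms and of their Lefschetz translates -/
theorem phi_mem (hM : IsMukaiIsometry X Y phi)
    (hg : ∀ g v, phi (M.act g v) = N.act g (phi v)) {j : ℕ} (i : ℕ) {V : Submodule ℂ B}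
    (hV : Stable N.ops V) (hc : Y.column (-(j : ℤ)) ≤ V) {w : A} (hw : w ∈ M.forms j) :
    phi (X.omega ^ i * w) ∈ V := by
  have hst : Stable M.ops (V.comap (phi.toLinearMap ∘ₗ LinearMap.mulLeft ℂ (X.omega ^ i))) :=
    Stable.comap (homs_comp (M.omega_homs i) (phi_homs hM hg)) hV
  have h1 : M.forms j ≤ X.degree j ⊓
      V.comap (phi.toLinearMap ∘ₗ LinearMap.mulLeft ℂ (X.omega ^ i)) := by
    refine M.forms_le (M.isSub_of_degree inf_le_left
      (fun g v hv => ⟨M.degree g j v hv.1, hst (Sum.inl g) v hv.2⟩)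
      fun d v hv => ⟨?_, hst (Sum.inr d) v hv.2⟩)
      fun v hv => ⟨X.mem_degree (zero_add j) hv, ?_⟩
    · show X.part (colSet d) v ∈ X.degree j
      rw [X.degree_iff, X.part_comm, X.degree_iff.1 hv.1]
    · refine hc (hM.mem_column _ _ (X.mem_column ?_ (X.pow_mem X.omega_mem hv i)))
      push_cast
      ring
  exact (h1 hw).2

variable [FiniteDimensional ℂ A] [FiniteDimensional ℂ B]

omit [FiniteDimensional ℂ A] [FiniteDimensional ℂ B] in
theorem emb_top (hM : IsMukaiIsometry X Y phi)
    (hg : ∀ g v, phi (M.act g v) = N.act g (phi v)) :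
    Emb (res M.ops (M.stable_forms n)) (res N.ops (N.stable_forms n)) := by
  have hc : Y.column (-(n : ℤ)) ≤ N.forms n := by
    intro w hw
    refine Y.column_induct (P := fun w => w ∈ N.forms n) (fun p q hpq a ha => ?_)
      (zero_mem _) (fun a b ha hb => add_mem ha hb) hw
    rcases Nat.eq_zero_or_pos p with hp | hp
    · subst hp
      have : q = n := by omega
      subst this
      exact N.H_le_forms _ ha
    · rw [Y.bounded _ _ (Or.inr (by omega))] at ha
      rw [(Submodule.mem_bot ℂ).1 ha]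
      exact zero_mem _
  have hmem : ∀ w ∈ M.forms n, phi w ∈ N.forms n := fun w hw => by
    have := phi_mem hM hg 0 (N.stable_forms n) hc hw
    rwa [pow_zero, one_mul] at this
  refine ⟨phi.toLinearMap.restrict hmem, fun i x => Subtype.ext (phi_homs hM hg i x), ?_⟩
  intro x y hxy
  exact Subtype.ext (phi.injective (congrArg Subtype.val hxy))

theorem emb_one (hM : IsMukaiIsometry X Y phi)
    (hg : ∀ g v, phi (M.act g v) = N.act g (phi v)) {j : ℕ} (hj : j + 1 = n) :
    Emb (res M.ops (M.stable_forms j)) (res N.ops (N.stable_forms j)) := by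
  have hst' : Stable N.ops ((N.forms j).map (LinearMap.mulLeft ℂ (Y.omega ^ 1))) :=
    (N.stable_forms j).map (N.omega_homs 1)
  have hVst : Stable N.ops (N.forms j ⊔ (N.forms j).map (LinearMap.mulLeft ℂ (Y.omega ^ 1))) :=
    (N.stable_forms j).sup hst'
  have hc : Y.column (-(j : ℤ)) ≤
      N.forms j ⊔ (N.forms j).map (LinearMap.mulLeft ℂ (Y.omega ^ 1)) := by
    intro w hw
    refine Y.column_induct (P := fun w => w ∈ N.forms j ⊔
      (N.forms j).map (LinearMap.mulLeft ℂ (Y.omega ^ 1))) (fun p q hpq a ha => ?_)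
      (zero_mem _) (fun a b ha hb => add_mem ha hb) hw
    by_cases hp : n < p ∨ n < q
    · rw [Y.bounded _ _ hp] at ha
      rw [(Submodule.mem_bot ℂ).1 ha]
      exact zero_mem _
    obtain rfl | rfl : p = 0 ∨ p = 1 := by omega
    · have : q = j := by omega
      subst this
      exact Submodule.mem_sup_left (N.H_le_forms _ ha)
    · have : q = j + 1 := by omega
      subst this
      obtain ⟨v, hv, he⟩ := Y.lefschetz_surj (p := 0) (q := j) (by omega) (w := a)
        (by rwa [show n - j = 1 by omega, show n - 0 = j + 1 by omega])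
      refine Submodule.mem_sup_right ⟨v, N.H_le_forms _ hv, ?_⟩
      rw [show n - (0 + j) = 1 by omega] at he
      exact he
  -- the components of `phi (w + omega w')`
  have hsplit : ∀ v ∈ N.forms j ⊔ (N.forms j).map (LinearMap.mulLeft ℂ (Y.omega ^ 1)),
      Y.part (degSet j) v ∈ N.forms j ∧
      Y.part (degSet (j + 2)) v ∈ (N.forms j).map (LinearMap.mulLeft ℂ (Y.omega ^ 1)) ∧
      Y.part (degSet j) v + Y.part (degSet (j + 2)) v = v := by
    intro v hv
    obtain ⟨a, ha, b, hb, rfl⟩ := Submodule.mem_sup.1 hv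
    obtain ⟨c, hc', rfl⟩ := hb
    have d1 := N.forms_le_degree j ha
    have d2 := Y.omega_pow_degree 1 (l := j + 2) (by omega) (N.forms_le_degree j hc')
    rw [LinearMap.mulLeft_apply, map_add, map_add, Y.degree_iff.1 d1, Y.degree_iff.1 d2,
      Y.part_degree_ne (show j ≠ j + 2 by omega) d1,
      Y.part_degree_ne (show j + 2 ≠ j by omega) d2, add_zero, zero_add]
    exact ⟨ha, ⟨c, hc', rfl⟩, rfl⟩
  set f : (M.forms j × M.forms j) →ₗ[ℂ] A :=
    (M.forms j).subtype ∘ₗ LinearMap.fst ℂ _ _ +
      (LinearMap.mulLeft ℂ (X.omega ^ 1) ∘ₗ (M.forms j).subtype) ∘ₗ LinearMap.snd ℂ _ _ with hf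
  have hfapp : ∀ x : M.forms j × M.forms j, f x = (x.1 : A) + X.omega ^ 1 * x.2 := fun x => rfl
  have hfh : f ∈ homs (prd (res M.ops (M.stable_forms j)) (res M.ops (M.stable_forms j)))
      M.ops := by
    intro i x
    have h1 := M.omega_homs 1 i (x.2 : A)
    rw [LinearMap.mulLeft_apply, LinearMap.mulLeft_apply] at h1
    rw [hfapp, hfapp, map_add, ← h1]
    rfl
  have hfV : ∀ x, phi (f x) ∈ N.forms j ⊔
      (N.forms j).map (LinearMap.mulLeft ℂ (Y.omega ^ 1)) := by
    intro x
    rw [hfapp, map_add]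
    refine add_mem ?_ (phi_mem hM hg 1 hVst hc x.2.2)
    have := phi_mem hM hg 0 hVst hc x.1.2
    rwa [pow_zero, one_mul] at this
  have hF := homs_comp hfh (phi_homs hM hg)
  refine Emb.of_prd (M.forms_cr (by omega)) (N.forms_cr (by omega)) ?_
  refine Emb.trans ?_ (emb_map (N.omega_homs 1) (N.stable_forms j) fun x hx h0 => ?_).sq
  · refine ⟨(((LinearMap.mulLeft ℂ (Y.omega ^ 1) ∘ₗ Y.part (degSet j)) ∘ₗ
        (phi.toLinearMap ∘ₗ f)).codRestrict _ fun x => ?_).prod
        ((Y.part (degSet (j + 2)) ∘ₗ (phi.toLinearMap ∘ₗ f)).codRestrict _ fun x => ?_),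
        fun i x => ?_, ?_⟩
    · exact ⟨_, (hsplit _ (hfV x)).1, rfl⟩
    · exact (hsplit _ (hfV x)).2.1
    · have h1 := homs_comp hF (homs_comp (N.degree_homs j) (N.omega_homs 1)) i x
      have h2 := homs_comp hF (N.degree_homs (j + 2)) i x
      exact Prod.ext (Subtype.ext h1) (Subtype.ext h2)
    · rw [injective_iff_map_eq_zero]
      intro x hx
      have h1 : Y.omega ^ 1 * Y.part (degSet j) (phi (f x)) = 0 :=
        congrArg (fun z => (z.1 : B)) hx
      have h2 : Y.part (degSet (j + 2)) (phi (f x)) = 0 := congrArg (fun z => (z.2 : B)) hx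
      have h3 : Y.part (degSet j) (phi (f x)) = 0 :=
        N.forms_lef (by omega) (hsplit _ (hfV x)).1 (by
          rw [show n - j = 1 by omega]; exact h1)
      have h4 := (hsplit _ (hfV x)).2.2
      rw [h2, h3, add_zero] at h4
      have h5 : f x = 0 := phi.map_eq_zero_iff.1 h4.symm
      rw [hfapp] at h5
      have d1 := M.forms_le_degree j x.1.2
      have d2 := X.omega_pow_degree 1 (l := j + 2) (by omega) (M.forms_le_degree j x.2.2)
      have h6 : (x.1 : A) = 0 := by
        have := congrArg (X.part (degSet j)) h5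
        rwa [map_add, map_zero, X.degree_iff.1 d1,
          X.part_degree_ne (show j + 2 ≠ j by omega) d2, add_zero] at this
      rw [h6, zero_add] at h5
      have h7 : (x.2 : A) = 0 := M.forms_lef (by omega) x.2.2 (by
        rw [show n - j = 1 by omega]; exact h5)
      exact Prod.ext (Subtype.ext h6) (Subtype.ext h7)
  · exact N.forms_lef (by omega) hx (by rw [show n - j = 1 by omega]; exact h0)

end Pool.Agent.Hodge81
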