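import Pool.Agent.Helper87.RF.Top

/-!
# Comparison in degree `n - 2`: the signature argument
-/

set_option autoImplicit false

namespace Pool.Agent.Hodge81

open Complex Module Pool.Agent.Helper87.RF HodgeRing

universe u

variable {n : ℕ} {A B : Type u} [Ring A] [Algebra ℂ A] [Ring B] [Algebra ℂ B]
  {X : HodgeRing n A} {Y : HodgeRing n B} {Γ : Type*} [Group Γ] {phi : A ≃ₗ[ℂ] B}
  {M : Monodromy X Γ} {N : Monodromy Y Γ}

/-- positivity: the two sides have opposite signs -/
theorem sign_compare (hM : IsMukaiIsometry X Y phi) {p q : ℕ} (h : p + q + 2 = n) {a w w' : A}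
    {b u : B} (hw : w ∈ X.H p q) (hw3 : X.omega ^ 3 * w = 0)
    (hw' : w' ∈ X.H p q) (hw3' : X.omega ^ 3 * w' = 0)
    (hb : b ∈ Y.H p q) (hb3 : Y.omega ^ 3 * b = 0)
    (hu : u ∈ Y.H (p + 1) (q + 1)) (hu1 : Y.omega * u = 0)
    (ha : a = w + X.omega ^ 1 * w' + ((-1 : ℝ) : ℂ) • (X.omega ^ 2 * w))
    (he : phi a = b + u + ((1 : ℝ) : ℂ) • (Y.omega ^ 2 * b)) : w = 0 ∧ w' = 0 := by
  obtain ⟨r1, h1, h1', e1⟩ := X.pos_str h hw hw3
  obtain ⟨r2, h2, h2', e2⟩ := X.pos_str h hw' hw3'
  obtain ⟨r3, h3, h3', e3⟩ := Y.pos_str h hb hb3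
  obtain ⟨r4, h4, h4', e4⟩ := Y.pos_mid h hu hu1
  have k1 := X.sesq_three h hw (u := X.omega ^ 1 * w') (X.pow_mem X.omega_mem hw' 1) (-1)
  have k2 := Y.sesq_three h hb hu 1
  rw [← ha] at k1
  rw [← he, hM.sesq, k1] at k2
  have k3 : X.sesq (X.omega ^ 1 * w') (X.omega ^ 1 * w') = -X.sesq w' (X.omega ^ 2 * w') := by
    rw [X.sesq_omega_pow, ← mul_assoc, ← pow_add]
    norm_num
  rw [k3, e1, e2, e3, e4] at k2
  set s : ℂ := (-1) ^ q * (-1) ^ ((p + q) * (p + q - 1) / 2) with hs
  have hss : s * s = 1 := by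
    have e5 : ∀ m : ℕ, (-1 : ℂ) ^ m * (-1) ^ m = 1 := fun m => by rw [← mul_pow]; norm_num
    have : s * s = ((-1) ^ q * (-1) ^ q) * ((-1) ^ ((p + q) * (p + q - 1) / 2) *
      (-1) ^ ((p + q) * (p + q - 1) / 2)) := by rw [hs]; ring
    rw [this, e5, e5, one_mul]
  have k4 : ((2 * r1 + r2 + 2 * r3 + r4 : ℝ) : ℂ) = 0 := by
    have : ((2 * r1 + r2 + 2 * r3 + r4 : ℝ) : ℂ) = (s * s) * (2 * r1 + r2 + 2 * r3 + r4) := by
      rw [hss]
      push_cast
      ring
    rw [this]
    push_cast at k2
    linear_combination (-s) * k2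
  have k5 : 2 * r1 + r2 + 2 * r3 + r4 = 0 := by exact_mod_cast k4
  exact ⟨h1' (by linarith), h2' (by linarith)⟩

variable [FiniteDimensional ℂ A] [FiniteDimensional ℂ B]

theorem emb_two (hM : IsMukaiIsometry X Y phi)
    (hg : ∀ g v, phi (M.act g v) = N.act g (phi v)) {j : ℕ} (hj : j + 2 = n) :
    Emb (res M.ops (M.stable_forms j)) (res N.ops (N.stable_forms j)) := by
  set W2 := (N.forms j).map (LinearMap.mulLeft ℂ (Y.omega ^ 2)) with hW2
  set U := Y.degree (j + 2) ⊓ W2.comap (LinearMap.mulLeft ℂ (Y.omega ^ 1)) with hU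
  have hW2st : Stable N.ops W2 := (N.stable_forms j).map (N.omega_homs 2)
  have hUst : Stable N.ops U := by
    have h1 := N.stable_of_isSub (N.degree_isSub (j + 2))
    have h2 := Stable.comap (N.omega_homs 1) hW2st
    exact fun i v hv => ⟨h1 i v hv.1, h2 i v hv.2⟩
  set V := N.forms j ⊔ U ⊔ W2 with hV
  have hVst : Stable N.ops V := ((N.stable_forms j).sup hUst).sup hW2st
  have hc : Y.column (-(j : ℤ)) ≤ V := by
    intro w hw
    refine Y.column_induct (P := fun w => w ∈ V) (fun p q hpq a ha => ?_)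
      (zero_mem _) (fun a b ha hb => add_mem ha hb) hw
    by_cases hp : n < p ∨ n < q
    · rw [Y.bounded _ _ hp] at ha
      rw [(Submodule.mem_bot ℂ).1 ha]
      exact zero_mem _
    have hlast : ∀ a ∈ Y.H 2 (j + 2), a ∈ W2 := by
      intro a ha
      obtain ⟨v, hv, he⟩ := Y.lefschetz_surj (p := 0) (q := j) (by omega) (w := a)
        (by rwa [show n - j = 2 by omega, show n - 0 = j + 2 by omega])
      rw [show n - (0 + j) = 2 by omega] at he
      exact ⟨v, N.H_le_forms _ hv, he⟩
    obtain rfl | rfl | rfl : p = 0 ∨ p = 1 ∨ p = 2 := by omega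
    · have : q = j := by omega
      subst this
      exact Submodule.mem_sup_left (Submodule.mem_sup_left (N.H_le_forms _ ha))
    · have : q = j + 1 := by omega
      subst this
      refine Submodule.mem_sup_left (Submodule.mem_sup_right ⟨Y.mem_degree (by omega) ha, ?_⟩)
      have h1 := Y.pow_mem Y.omega_mem ha 1
      exact hlast _ h1
    · have : q = j + 2 := by omega
      subst this
      exact Submodule.mem_sup_right (hlast _ ha)
  have hsplit : ∀ v ∈ V, Y.part (degSet j) v ∈ N.forms j ∧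
      Y.part (degSet (j + 2)) v ∈ U ∧ Y.part (degSet (j + 4)) v ∈ W2 ∧
      Y.part (degSet j) v + Y.part (degSet (j + 2)) v + Y.part (degSet (j + 4)) v = v := by
    intro v hv
    obtain ⟨x, hx, c, hc', rfl⟩ := Submodule.mem_sup.1 hv
    obtain ⟨a, ha, b, hb, rfl⟩ := Submodule.mem_sup.1 hx
    have d1 := N.forms_le_degree j ha
    have d2 := hb.1
    have d3 : c ∈ Y.degree (j + 4) := by
      obtain ⟨c', hc'', rfl⟩ := hc'
      exact Y.omega_pow_degree 2 (l := j + 4) (by omega) (N.forms_le_degree j hc'')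
    simp only [map_add]
    rw [Y.degree_iff.1 d1, Y.degree_iff.1 d2, Y.degree_iff.1 d3,
      Y.part_degree_ne (show j ≠ j + 2 by omega) d1, Y.part_degree_ne (show j ≠ j + 4 by omega) d1,
      Y.part_degree_ne (show j + 2 ≠ j by omega) d2,
      Y.part_degree_ne (show j + 2 ≠ j + 4 by omega) d2,
      Y.part_degree_ne (show j + 4 ≠ j by omega) d3,
      Y.part_degree_ne (show j + 4 ≠ j + 2 by omega) d3]
    simp only [add_zero, zero_add]
    exact ⟨ha, hb, hc', trivial⟩
  -- the map `(w, w') ↦ w - omega^2 w + omega w'`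
  set f : (M.forms j × M.forms j) →ₗ[ℂ] A :=
    ((M.forms j).subtype - LinearMap.mulLeft ℂ (X.omega ^ 2) ∘ₗ (M.forms j).subtype) ∘ₗ
      LinearMap.fst ℂ _ _ +
      (LinearMap.mulLeft ℂ (X.omega ^ 1) ∘ₗ (M.forms j).subtype) ∘ₗ LinearMap.snd ℂ _ _ with hf
  have hfapp : ∀ x : M.forms j × M.forms j,
      f x = ((x.1 : A) - X.omega ^ 2 * x.1) + X.omega ^ 1 * x.2 := fun x => rfl
  have hfh : f ∈ homs (prd (res M.ops (M.stable_forms j)) (res M.ops (M.stable_forms j)))
      M.ops := by
    intro i x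
    have h1 := M.omega_homs 1 i (x.2 : A)
    have h2 := M.omega_homs 2 i (x.1 : A)
    rw [LinearMap.mulLeft_apply, LinearMap.mulLeft_apply] at h1 h2
    rw [hfapp, hfapp, map_add, map_sub, ← h1, ← h2]
    rfl
  have hfV : ∀ x, phi (f x) ∈ V := by
    intro x
    rw [hfapp, map_add, map_sub]
    refine add_mem (sub_mem ?_ (phi_mem hM hg 2 hVst hc x.1.2)) (phi_mem hM hg 1 hVst hc x.2.2)
    have := phi_mem hM hg 0 hVst hc x.1.2
    rwa [pow_zero, one_mul] at this
  have hF := homs_comp hfh (phi_homs hM hg)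
  refine Emb.of_prd (M.forms_cr (by omega)) (N.forms_cr (by omega)) ?_
  refine Emb.trans ?_ (emb_map (N.omega_homs 2) (N.stable_forms j) fun x hx h0 => ?_).sq
  swap
  · exact N.forms_lef (by omega) hx (by rw [show n - j = 2 by omega]; exact h0)
  refine ⟨((((LinearMap.mulLeft ℂ (Y.omega ^ 2) ∘ₗ Y.part (degSet j)) -
        Y.part (degSet (j + 4))) ∘ₗ (phi.toLinearMap ∘ₗ f)).codRestrict _ fun x => ?_).prod
      (((LinearMap.mulLeft ℂ (Y.omega ^ 1) ∘ₗ Y.part (degSet (j + 2))) ∘ₗ
        (phi.toLinearMap ∘ₗ f)).codRestrict _ fun x => ?_), fun i x => ?_, ?_⟩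
  · exact sub_mem ⟨_, (hsplit _ (hfV x)).1, rfl⟩ (hsplit _ (hfV x)).2.2.1
  · exact (hsplit _ (hfV x)).2.1.2
  · have h1 := homs_comp hF (sub_mem (homs_comp (N.degree_homs j) (N.omega_homs 2))
      (N.degree_homs (j + 4))) i x
    have h2 := homs_comp hF (homs_comp (N.degree_homs (j + 2)) (N.omega_homs 1)) i x
    exact Prod.ext (Subtype.ext h1) (Subtype.ext h2)
  · rw [injective_iff_map_eq_zero]
    intro x hx
    have h1 : Y.omega ^ 2 * Y.part (degSet j) (phi (f x)) =
        Y.part (degSet (j + 4)) (phi (f x)) :=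
      sub_eq_zero.1 (congrArg (fun z => (z.1 : B)) hx)
    have h2 : Y.omega ^ 1 * Y.part (degSet (j + 2)) (phi (f x)) = 0 :=
      congrArg (fun z => (z.2 : B)) hx
    obtain ⟨ha, hu, -, hs⟩ := hsplit _ (hfV x)
    rw [← h1] at hs
    have key : ∀ d, X.part (colSet d) (x.1 : A) = 0 ∧ X.part (colSet d) (x.2 : A) = 0 := by
      intro d
      have k1 : X.part (colSet d) (x.1 : A) ∈ M.forms j := M.stable_forms j (Sum.inr d) _ x.1.2
      have k2 : X.part (colSet d) (x.2 : A) ∈ M.forms j := M.stable_forms j (Sum.inr d) _ x.2.2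
      by_cases hex : ∃ p q : ℕ, p + q = j ∧ (p : ℤ) - q = d
      · obtain ⟨p, q, hpq, hd⟩ := hex
        have k3 : Y.part (colSet d) (Y.part (degSet j) (phi (f x))) ∈ N.forms j :=
          N.stable_forms j (Sum.inr d) _ ha
        have k4 : Y.part (colSet d) (Y.part (degSet (j + 2)) (phi (f x))) ∈ U :=
          hUst (Sum.inr d) _ hu
        refine sign_compare hM (p := p) (q := q) (by omega)
          (b := Y.part (colSet d) (Y.part (degSet j) (phi (f x))))
          (u := Y.part (colSet d) (Y.part (degSet (j + 2)) (phi (f x))))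
          (a := X.part (colSet d) (f x))
          (X.column_mem_H (M.forms_le_degree j k1) (X.part_column_mem _ _) hpq hd)
          (by
            have := M.forms_prim (by omega) k1
            rwa [show n - j + 1 = 3 by omega] at this)
          (X.column_mem_H (M.forms_le_degree j k2) (X.part_column_mem _ _) hpq hd)
          (by
            have := M.forms_prim (by omega) k2
            rwa [show n - j + 1 = 3 by omega] at this)
          (Y.column_mem_H (N.forms_le_degree j k3) (Y.part_column_mem _ _) hpq hd)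
          (by
            have := N.forms_prim (by omega) k3
            rwa [show n - j + 1 = 3 by omega] at this)
          (Y.column_mem_H (k := j + 2) k4.1 (Y.part_column_mem _ _) (by omega)
            (by push_cast; omega)) ?_ ?_ ?_
        · have := Y.omega_part_column d 1 (Y.part (degSet (j + 2)) (phi (f x)))
          rw [h2, map_zero, pow_one] at this
          exact this
        · rw [hfapp, map_add, map_sub, ← X.omega_part_column, ← X.omega_part_column]
          push_cast
          rw [neg_one_smul]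
          abel
        · have k5 := part_column_comm (f := phi.toLinearMap) hM.mem_column d (f x)
          rw [LinearEquiv.coe_coe] at k5
          rw [k5, Complex.ofReal_one, one_smul, Y.omega_part_column]
          nth_rewrite 1 [← hs]
          rw [map_add, map_add]
      · have hz : ∀ v ∈ M.forms j, X.part (colSet d) v ∈ M.forms j →
            X.part (colSet d) v = 0 := by
          intro v _ hv
          rw [← X.degree_iff.1 (M.forms_le_degree j hv), X.part_part]
          have : degSet j ∩ colSet d = ∅ := by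
            ext x
            simp only [degSet, colSet, Set.mem_inter_iff, Set.mem_ofPred_eq,
              Set.mem_empty_iff_false, iff_false]
            intro hx
            exact hex ⟨x.1, x.2, hx.1, hx.2⟩
          rw [this]
          refine X.induct (P := fun v => X.part ∅ v = 0) (fun p q a ha => ?_) (by simp)
            (fun a b ha hb => by rw [map_add, ha, hb, add_zero]) v
          exact X.part_of_notMem ha (Set.notMem_empty _)
        exact ⟨hz _ x.1.2 k1, hz _ x.2.2 k2⟩
    exact Prod.ext (Subtype.ext (X.eq_zero_of_columns fun d => (key d).1))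
      (Subtype.ext (X.eq_zero_of_columns fun d => (key d).2))

end Pool.Agent.Hodge81
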